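import Pool.Agent.Work.MP_709d16_ag.Criterion

set_option autoImplicit false

namespace Pool.Agent.Work.MP_709d16_ag

namespace Cert

/-- kernel friendly sum -/
noncomputable def nsum (n : ℕ) (f : ℕ → ℕ) : ℕ := Nat.rec 0 (fun i acc => Nat.add acc (f i)) n

/-- kernel friendly conjunction -/
noncomputable def nall (n : ℕ) (f : ℕ → Bool) : Bool := Nat.rec true (fun i acc => and (f i) acc) n

theorem nsum_eq (n : ℕ) (f : ℕ → ℕ) : nsum n f = ∑ i ∈ Finset.range n, f i := by
  induction n with
  | zero => rfl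
  | succ n ih =>
    rw [Finset.sum_range_succ, ← ih]
    rfl

theorem nall_iff (n : ℕ) (f : ℕ → Bool) : nall n f = true ↔ ∀ i < n, f i = true := by
  induction n with
  | zero => simp [nall]
  | succ n ih =>
    have : nall (n + 1) f = (f n && nall n f) := rfl
    rw [this, Bool.and_eq_true, ih]
    constructor
    · rintro ⟨h1, h2⟩ i hi
      rcases Nat.lt_succ_iff_lt_or_eq.mp hi with h | h
      · exact h2 i h
      · rw [h]; exact h1
    · intro h
      exact ⟨h n (by omega), fun i hi => h i (by omega)⟩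

/-- table access: `w` bits per entry -/
def tab (w t i : ℕ) : ℕ := Nat.mod (Nat.shiftRight t (Nat.mul w i)) (Nat.pow 2 w)

/-- one entry of the product `Lc * E` -/
noncomputable def entry (M q N L o1 o2 : ℕ) (V : ℕ → ℕ → ℕ) (T : ℕ → ℕ → ℕ → ℕ) (b : ℕ → ℕ → ℕ)
    (f : ℕ → ℕ) (i l : ℕ) : ℕ :=
  Nat.add (Nat.add (nsum 3 fun c => Nat.mul (f (Nat.add (Nat.mul 3 i) c)) (T i c l))
    (nsum N fun k => Nat.mul (f (Nat.add (Nat.add o1 (Nat.mul k M)) l)) (V k i)))
    (cond (Nat.beq i q) (nsum L fun j => Nat.mul (f (Nat.add o2 j)) (b j l)) 0)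

noncomputable def checkRow (M q N L o1 o2 p : ℕ) (V : ℕ → ℕ → ℕ) (T : ℕ → ℕ → ℕ → ℕ)
    (b : ℕ → ℕ → ℕ) (lc : ℕ → ℕ → ℕ) (u row : ℕ) : Bool :=
  nall (q + 1) fun i => nall M fun l =>
    Nat.beq (Nat.mod (entry M q N L o1 o2 V T b (lc row) i l) p)
      (cond (Nat.beq (Nat.add (Nat.mul i M) l) u) 1 0)

noncomputable def checkRows (M q N L o1 o2 p : ℕ) (V : ℕ → ℕ → ℕ) (T : ℕ → ℕ → ℕ → ℕ)
    (b : ℕ → ℕ → ℕ) (lc : ℕ → ℕ → ℕ) (rows : List (ℕ × ℕ)) : Bool :=
  List.rec true (fun ur _ ih => Prod.rec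
    (fun u row => and (checkRow M q N L o1 o2 p V T b lc u row) ih) ur) rows

theorem checkRows_iff {M q N L o1 o2 p : ℕ} {V : ℕ → ℕ → ℕ} {T : ℕ → ℕ → ℕ → ℕ}
    {b : ℕ → ℕ → ℕ} {lc : ℕ → ℕ → ℕ} {rows : List (ℕ × ℕ)} :
    checkRows M q N L o1 o2 p V T b lc rows = true ↔
      ∀ ur ∈ rows, checkRow M q N L o1 o2 p V T b lc ur.1 ur.2 = true := by
  induction rows with
  | nil => simp [checkRows]
  | cons ur rows ih =>
    have : checkRows M q N L o1 o2 p V T b lc (ur :: rows) =
      (checkRow M q N L o1 o2 p V T b lc ur.1 ur.2 && checkRows M q N L o1 o2 p V T b lc rows) :=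
      rfl
    rw [this, Bool.and_eq_true, ih]
    simp

theorem sound {K : Type*} [Field K] [CharZero K] {M q N L o1 o2 p : ℕ} (hp : 2 ≤ p)
    {V : ℕ → ℕ → ℕ} {T : ℕ → ℕ → ℕ → ℕ} {b : ℕ → ℕ → ℕ} {lc : ℕ → ℕ → ℕ} {rows : List (ℕ × ℕ)}
    (hrows : rows.map Prod.fst = List.range ((q + 1) * M))
    (hcheck : checkRows M q N L o1 o2 p V T b lc rows = true)
    (Θ : ℕ → ℕ → K)
    (h1 : ∀ i < q + 1, ∀ c < 3, ∑ l ∈ Finset.range M, (T i c l : K) * Θ i l = 0)
    (h2 : ∀ k < N, ∀ l < M, ∑ i ∈ Finset.range (q + 1), (V k i : K) * Θ i l = 0)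
    (h3 : ∀ j < L, ∑ l ∈ Finset.range M, (b j l : K) * Θ q l = 0) :
    ∀ i < q + 1, ∀ l < M, Θ i l = 0 := by
  classical
  rw [checkRows_iff] at hcheck
  have hex : ∀ u : Fin (q + 1) × Fin M, ∃ ur ∈ rows, ur.1 = (u.1 : ℕ) * M + u.2 := by
    intro u
    have h4 : (u.1 : ℕ) * M + u.2 ∈ rows.map Prod.fst := by
      rw [hrows, List.mem_range]
      have h5 := u.1.2
      have h6 := u.2.2
      calc (u.1 : ℕ) * M + u.2 < u.1 * M + M := by omega
        _ = (u.1 + 1) * M := by ring
        _ ≤ (q + 1) * M := Nat.mul_le_mul_right _ (by omega)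
    obtain ⟨ur, h5, h6⟩ := List.mem_map.mp h4
    exact ⟨ur, h5, h6⟩
  choose ur hur1 hur2 using hex
  let Q : Matrix (Fin (q + 1) × Fin M) (Fin (q + 1) × Fin M) ℤ := Matrix.of fun u v =>
    ((entry M q N L o1 o2 V T b (lc (ur u).2) v.1 v.2 : ℕ) : ℤ)
  have hQ : (Int.castRingHom (ZMod p)).mapMatrix Q = 1 := by
    ext u v
    have h4 := hcheck (ur u) (hur1 u)
    unfold checkRow at h4
    rw [nall_iff] at h4
    have h5 := h4 v.1 v.1.2
    rw [nall_iff] at h5
    have h6 := h5 v.2 v.2.2
    have h7 : entry M q N L o1 o2 V T b (lc (ur u).2) v.1 v.2 % p =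
        if (v.1 : ℕ) * M + v.2 = (ur u).1 then 1 else 0 := by
      have := Nat.eq_of_beq_eq_true h6
      change _ % p = _ at this
      rw [this]
      by_cases h : (v.1 : ℕ) * M + v.2 = (ur u).1
      · rw [if_pos h]
        have : Nat.beq (Nat.add (Nat.mul v.1 M) v.2) (ur u).1 = true := Nat.beq_eq.mpr h
        rw [this]
        rfl
      · rw [if_neg h]
        have : Nat.beq (Nat.add (Nat.mul v.1 M) v.2) (ur u).1 = false := by
          rw [← Bool.not_eq_true]
          intro h8
          exact h (Nat.eq_of_beq_eq_true h8)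
        rw [this]
        rfl
    have h8 : ((entry M q N L o1 o2 V T b (lc (ur u).2) v.1 v.2 : ℕ) : ZMod p) =
        ((if (v.1 : ℕ) * M + v.2 = (ur u).1 then 1 else 0 : ℕ) : ZMod p) := by
      rw [← h7, ZMod.natCast_mod]
    simp only [Q, RingHom.mapMatrix_apply, Matrix.map_apply, Matrix.of_apply,
      Int.coe_castRingHom, Int.cast_natCast]
    rw [h8, Matrix.one_apply, hur2 u]
    by_cases h : u = v
    · subst h
      simp
    · rw [if_neg h, if_neg]
      · simp
      · intro h9
        apply h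
        have h10 : (v.1 : ℕ) = u.1 := by
          have e1 : ((v.1 : ℕ) * M + v.2) / M = v.1 := by
            rw [mul_comm, Nat.mul_add_div (by have := v.2.2; omega), Nat.div_eq_of_lt v.2.2]; rfl
          have e2 : ((u.1 : ℕ) * M + u.2) / M = u.1 := by
            rw [mul_comm, Nat.mul_add_div (by have := v.2.2; omega), Nat.div_eq_of_lt u.2.2]; rfl
          rw [← e1, ← e2, h9]
        rw [h10] at h9
        exact Prod.ext (Fin.ext h10.symm) (Fin.ext (by omega))
  have hdet : Q.det ≠ 0 := by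
    intro h0
    have h4 := RingHom.map_det (Int.castRingHom (ZMod p)) Q
    rw [hQ, h0, map_zero, Matrix.det_one] at h4
    have : Fact (1 < p) := ⟨by omega⟩
    exact zero_ne_one h4
  have hdetK : ((Int.castRingHom K).mapMatrix Q).det ≠ 0 := by
    rw [← RingHom.map_det]
    simpa using hdet
  have hmul : Matrix.mulVec ((Int.castRingHom K).mapMatrix Q)
      (fun v : Fin (q + 1) × Fin M => Θ v.1 v.2) = 0 := by
    ext1 u
    simp only [Matrix.mulVec, dotProduct, Q, RingHom.mapMatrix_apply, Matrix.map_apply,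
      Matrix.of_apply, Int.coe_castRingHom, Int.cast_natCast, Pi.zero_apply]
    generalize lc (ur u).2 = f
    rw [Fintype.sum_prod_type]
    have hF1 : ∀ g : ℕ → ℕ → K, ∑ i : Fin (q + 1), ∑ l : Fin M, g i l =
        ∑ i ∈ Finset.range (q + 1), ∑ l ∈ Finset.range M, g i l := by
      intro g
      rw [← Fin.sum_univ_eq_sum_range (fun i => ∑ l ∈ Finset.range M, g i l)]
      apply Finset.sum_congr rfl
      intro i _
      rw [← Fin.sum_univ_eq_sum_range (fun l => g i l)]
    rw [hF1 fun i l => ((entry M q N L o1 o2 V T b f i l : ℕ) : K) * Θ i l]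
    have hent : ∀ i l, ((entry M q N L o1 o2 V T b f i l : ℕ) : K) =
        (∑ c ∈ Finset.range 3, (f (3 * i + c) : K) * (T i c l : K)) +
        (∑ k ∈ Finset.range N, (f (o1 + k * M + l) : K) * (V k i : K)) +
        (if i = q then ∑ j ∈ Finset.range L, (f (o2 + j) : K) * (b j l : K) else 0) := by
      intro i l
      unfold entry
      rw [nsum_eq, nsum_eq, nsum_eq]
      have h4 : (cond (Nat.beq i q) (∑ j ∈ Finset.range L, Nat.mul (f (Nat.add o2 j)) (b j l)) 0) =
          if i = q then ∑ j ∈ Finset.range L, Nat.mul (f (Nat.add o2 j)) (b j l) else 0 := by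
        by_cases h : i = q
        · rw [if_pos h]
          have : Nat.beq i q = true := Nat.beq_eq.mpr h
          rw [this]
          rfl
        · rw [if_neg h]
          have : Nat.beq i q = false := by
            rw [← Bool.not_eq_true]
            intro h8
            exact h (Nat.eq_of_beq_eq_true h8)
          rw [this]
          rfl
      rw [h4]
      simp only [Nat.add_eq, Nat.mul_eq]
      push_cast
      rfl
    simp only [hent, add_mul, Finset.sum_add_distrib]
    have e1 : ∑ i ∈ Finset.range (q + 1), ∑ l ∈ Finset.range M,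
        (∑ c ∈ Finset.range 3, (f (3 * i + c) : K) * (T i c l : K)) * Θ i l = 0 := by
      apply Finset.sum_eq_zero
      intro i hi
      rw [Finset.mem_range] at hi
      simp only [Finset.sum_mul]
      rw [Finset.sum_comm]
      apply Finset.sum_eq_zero
      intro c hc
      rw [Finset.mem_range] at hc
      rw [← mul_zero (f (3 * i + c) : K), ← h1 i hi c hc, Finset.mul_sum]
      apply Finset.sum_congr rfl
      intro l _
      ring
    have e2 : ∑ i ∈ Finset.range (q + 1), ∑ l ∈ Finset.range M,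
        (∑ k ∈ Finset.range N, (f (o1 + k * M + l) : K) * (V k i : K)) * Θ i l = 0 := by
      rw [Finset.sum_comm]
      apply Finset.sum_eq_zero
      intro l hl
      rw [Finset.mem_range] at hl
      simp only [Finset.sum_mul]
      rw [Finset.sum_comm]
      apply Finset.sum_eq_zero
      intro k hk
      rw [Finset.mem_range] at hk
      rw [← mul_zero (f (o1 + k * M + l) : K), ← h2 k hk l hl, Finset.mul_sum]
      apply Finset.sum_congr rfl
      intro i _
      ring
    have e3 : ∑ i ∈ Finset.range (q + 1), ∑ l ∈ Finset.range M,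
        (if i = q then ∑ j ∈ Finset.range L, (f (o2 + j) : K) * (b j l : K) else 0) * Θ i l = 0 := by
      apply Finset.sum_eq_zero
      intro i _
      by_cases h : i = q
      · subst h
        simp only [if_true, Finset.sum_mul]
        rw [Finset.sum_comm]
        apply Finset.sum_eq_zero
        intro j hj
        rw [Finset.mem_range] at hj
        rw [← mul_zero (f (o2 + j) : K), ← h3 j hj, Finset.mul_sum]
        apply Finset.sum_congr rfl
        intro l _
        ring
      · simp [h]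
    rw [e1, e2, e3]
    simp
  have hzero := Matrix.eq_zero_of_mulVec_eq_zero hdetK hmul
  intro i hi l hl
  exact congrFun hzero (⟨i, hi⟩, ⟨l, hl⟩)

end Cert

end Pool.Agent.Work.MP_709d16_ag
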