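import Pool.Agent.Work.MP_709d16_ag.Cert

set_option autoImplicit false

namespace Pool.Agent.Work.MP_709d16_ag

namespace Cert

open MvPolynomial

/-- value of the monomial `e k` at the node `s i` -/
noncomputable def valN (e s : ℕ → ℕ → ℕ) (k i : ℕ) : ℕ :=
  Nat.mul (Nat.mul (Nat.pow (s i 0) (e k 0)) (Nat.pow (s i 1) (e k 1))) (Nat.pow (s i 2) (e k 2))

/-- value of the `c`-th partial derivative of the monomial `e k` at the node `s i` -/
noncomputable def dvalN (e s : ℕ → ℕ → ℕ) (c k i : ℕ) : ℕ :=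
  Nat.mul (e k c) (Nat.mul (Nat.mul
    (Nat.pow (s i 0) (Nat.sub (e k 0) (cond (Nat.beq c 0) 1 0)))
    (Nat.pow (s i 1) (Nat.sub (e k 1) (cond (Nat.beq c 1) 1 0))))
    (Nat.pow (s i 2) (Nat.sub (e k 2) (cond (Nat.beq c 2) 1 0))))

theorem dvalN_0 (e s : ℕ → ℕ → ℕ) (k i : ℕ) : dvalN e s 0 k i =
    e k 0 * (s i 0 ^ (e k 0 - 1) * s i 1 ^ e k 1 * s i 2 ^ e k 2) := rfl

theorem dvalN_1 (e s : ℕ → ℕ → ℕ) (k i : ℕ) : dvalN e s 1 k i =
    e k 1 * (s i 0 ^ e k 0 * s i 1 ^ (e k 1 - 1) * s i 2 ^ e k 2) := rfl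

theorem dvalN_2 (e s : ℕ → ℕ → ℕ) (k i : ℕ) : dvalN e s 2 k i =
    e k 2 * (s i 0 ^ e k 0 * s i 1 ^ e k 1 * s i 2 ^ (e k 2 - 1)) := rfl

/-- the tables `V`, `T` agree with the values `val k i` and derivatives `dval c k i` -/
noncomputable def checkTables (M q N : ℕ) (a : ℕ → ℕ → ℕ) (val : ℕ → ℕ → ℕ)
    (dval : ℕ → ℕ → ℕ → ℕ) (V : ℕ → ℕ → ℕ) (T : ℕ → ℕ → ℕ → ℕ) (l0 : ℕ) : Bool :=
  and (and (nall N fun k => nall (q + 1) fun i => Nat.beq (V k i) (val k i))
    (nall (q + 1) fun i => nall 3 fun c => nall M fun l =>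
      Nat.beq (T i c l) (nsum N fun k => Nat.mul (a l k) (dval c k i))))
    (and (Nat.blt l0 M) (Nat.blt 0 (nsum N fun k => Nat.mul (a l0 k) (V k q))))

theorem interpolation_of_cert {K : Type*} [Field K] [CharZero K] [IsAlgClosed K] {ι : Type*}
    [Fintype ι] (v : ι → MvPolynomial (Fin 3) K) (n D : ℕ) {q N L o1 o2 p : ℕ}
    (hq : D / (n - 2) = q) (hL : n - 1 - D % (n - 2) = L + 1) (hp : 2 ≤ p)
    (ε : Fin N ≃ ι) (a s b : ℕ → ℕ → ℕ) (val : ℕ → ℕ → ℕ) (dval : ℕ → ℕ → ℕ → ℕ)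
    (V : ℕ → ℕ → ℕ) (T : ℕ → ℕ → ℕ → ℕ) (lc : ℕ → ℕ → ℕ) (rows : List (ℕ × ℕ)) (l0 : ℕ)
    (hval : ∀ (k : Fin N) (i : ℕ),
      eval (fun c : Fin 3 => ((s i c : ℕ) : K)) (v (ε k)) = ((val k i : ℕ) : K))
    (hdval : ∀ (k : Fin N) (i : ℕ) (c : Fin 3),
      eval (fun c : Fin 3 => ((s i c : ℕ) : K)) (pderiv c (v (ε k))) = ((dval c k i : ℕ) : K))
    (htab : checkTables (n + 1) q N a val dval V T l0 = true)
    (hrows : rows.map Prod.fst = List.range ((q + 1) * (n + 1)))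
    (hcheck : checkRows (n + 1) q N L o1 o2 p V T b lc rows = true) :
    Interpolation v n D := by
  classical
  unfold checkTables at htab
  rw [Bool.and_eq_true, Bool.and_eq_true, Bool.and_eq_true] at htab
  obtain ⟨⟨hV, hT⟩, hl0, hne⟩ := htab
  have hV' : ∀ k < N, ∀ i < q + 1, V k i = val k i := by
    intro k hk i hi
    rw [nall_iff] at hV
    have h1 := hV k hk
    rw [nall_iff] at h1
    exact Nat.eq_of_beq_eq_true (h1 i hi)
  have hT' : ∀ i < q + 1, ∀ c < 3, ∀ l < n + 1, T i c l =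
      ∑ k ∈ Finset.range N, a l k * dval c k i := by
    intro i hi c hc l hl
    rw [nall_iff] at hT
    have h1 := hT i hi
    rw [nall_iff] at h1
    have h2 := h1 c hc
    rw [nall_iff] at h2
    have h3 := Nat.eq_of_beq_eq_true (h2 l hl)
    rw [h3, nsum_eq]
    rfl
  have hl0' : l0 < n + 1 := by
    have : Nat.blt l0 (n + 1) = true := hl0
    simpa [Nat.blt_eq] using this
  have hne' : 0 < ∑ k ∈ Finset.range N, a l0 k * V k q := by
    have : Nat.blt 0 (nsum N fun k => Nat.mul (a l0 k) (V k q)) = true := hne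
    rw [Nat.blt_eq, nsum_eq] at this
    exact this
  let A0 : Matrix (Fin (n + 1)) ι K := Matrix.of fun l k => ((a l (ε.symm k) : ℕ) : K)
  have hAsum : ∀ (l : Fin (n + 1)) (f : ι → K), ∑ k, A0 l k * f k =
      ∑ k : Fin N, ((a l k : ℕ) : K) * f (ε k) := by
    intro l f
    rw [← ε.sum_comp]
    simp [A0]
  refine interpolation_of_jacobian v n D q L hq hL A0 (fun i c => ((s i c : ℕ) : K))
    (fun c => ((s q c : ℕ) : K)) (fun j l => ((b j l : ℕ) : K)) ?_ ?_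
  · refine ⟨⟨l0, hl0'⟩, ?_⟩
    change ∑ k, A0 ⟨l0, hl0'⟩ k * _ ≠ 0
    rw [hAsum]
    have h1 : ∑ k : Fin N, ((a l0 k : ℕ) : K) *
        eval (fun c : Fin 3 => ((s q c : ℕ) : K)) (v (ε k)) =
        ((∑ k ∈ Finset.range N, a l0 k * V k q : ℕ) : K) := by
      rw [← Fin.sum_univ_eq_sum_range (fun k => a l0 k * V k q)]
      push_cast
      apply Finset.sum_congr rfl
      intro k _
      rw [hval k q, hV' k k.2 q (by omega)]
    rw [h1]
    exact_mod_cast hne'.ne'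
  · intro θ θy h1 h2 h3 h4
    let Θ : ℕ → ℕ → K := fun i l => if hl : l < n + 1 then
      (if hi : i < q then θ ⟨i, hi⟩ ⟨l, hl⟩ else θy ⟨l, hl⟩) else 0
    have hΘi : ∀ (i : Fin q) (l : Fin (n + 1)), Θ i l = θ i l := by
      intro i l
      simp only [Θ]
      rw [dif_pos l.2, dif_pos i.2]
    have hΘy : ∀ (l : Fin (n + 1)), Θ q l = θy l := by
      intro l
      simp only [Θ]
      rw [dif_pos l.2, dif_neg (by omega)]
    have key := sound hp hrows hcheck Θ ?_ ?_ ?_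
    · constructor
      · intro i
        ext1 l
        rw [← hΘi]
        exact key i (by omega) l l.2
      · ext1 l
        rw [← hΘy]
        exact key q (by omega) l l.2
    · intro i hi c hc
      rw [← Fin.sum_univ_eq_sum_range (fun l => (T i c l : K) * Θ i l)]
      have hTl : ∀ l : Fin (n + 1), (T i c l : K) = ∑ k, A0 l k *
          eval (fun c : Fin 3 => ((s i c : ℕ) : K)) (pderiv ⟨c, hc⟩ (v k)) := by
        intro l
        rw [hAsum, hT' i hi c hc l l.2,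
          ← Fin.sum_univ_eq_sum_range (fun k => a l k * dval c k i)]
        push_cast
        apply Finset.sum_congr rfl
        intro k _
        rw [hdval]
      rcases Nat.lt_or_ge i q with hiq | hiq
      · rw [← h1 ⟨i, hiq⟩ ⟨c, hc⟩]
        apply Finset.sum_congr rfl
        intro l _
        rw [hTl, mul_comm, hΘi ⟨i, hiq⟩ l]
      · obtain rfl : i = q := by omega
        rw [← h2 ⟨c, hc⟩]
        apply Finset.sum_congr rfl
        intro l _
        rw [hTl, mul_comm, hΘy]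
    · intro k hk l hl
      rw [Finset.sum_range_succ, ← Fin.sum_univ_eq_sum_range (fun i => (V k i : K) * Θ i l)]
      rw [← h4 (ε ⟨k, hk⟩) ⟨l, hl⟩]
      congr 1
      · apply Finset.sum_congr rfl
        intro i _
        rw [hval ⟨k, hk⟩ i, hV' k hk i (by omega), hΘi i ⟨l, hl⟩]
      · rw [hval ⟨k, hk⟩ q, hV' k hk q (by omega), hΘy ⟨l, hl⟩]
    · intro j hj
      rw [← Fin.sum_univ_eq_sum_range (fun l => (b j l : K) * Θ q l)]
      rw [← h3 ⟨j, hj⟩]
      apply Finset.sum_congr rfl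
      intro l _
      rw [hΘy, mul_comm]

/-- values of a monomial -/
theorem eval_mono {K : Type*} [Field K] (e s : ℕ → ℕ → ℕ) (k i : ℕ) :
    eval (fun c : Fin 3 => ((s i c : ℕ) : K))
      (X 0 ^ e k 0 * X 1 ^ e k 1 * X 2 ^ e k 2) = ((valN e s k i : ℕ) : K) := by
  have : valN e s k i = s i 0 ^ e k 0 * s i 1 ^ e k 1 * s i 2 ^ e k 2 := rfl
  rw [this]
  simp

theorem eval_pderiv_mono {K : Type*} [Field K] (e s : ℕ → ℕ → ℕ) (k i : ℕ) (c : Fin 3) :
    eval (fun c : Fin 3 => ((s i c : ℕ) : K))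
      (pderiv c (X 0 ^ e k 0 * X 1 ^ e k 1 * X 2 ^ e k 2)) = ((dvalN e s c k i : ℕ) : K) := by
  fin_cases c
  · simp [Derivation.leibniz_pow, dvalN_0]
    ring
  · simp [Derivation.leibniz_pow, dvalN_1]
    ring
  · simp [Derivation.leibniz_pow, dvalN_2]
    ring

/-- the case in which every `v_k` is a monomial -/
theorem interpolation_of_cert_mono {K : Type*} [Field K] [CharZero K] [IsAlgClosed K] {ι : Type*}
    [Fintype ι] (v : ι → MvPolynomial (Fin 3) K) (n D : ℕ) {q N L o1 o2 p : ℕ}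
    (hq : D / (n - 2) = q) (hL : n - 1 - D % (n - 2) = L + 1) (hp : 2 ≤ p)
    (ε : Fin N ≃ ι) (e a s b : ℕ → ℕ → ℕ) (V : ℕ → ℕ → ℕ) (T : ℕ → ℕ → ℕ → ℕ) (lc : ℕ → ℕ → ℕ)
    (rows : List (ℕ × ℕ)) (l0 : ℕ)
    (hv : ∀ k : Fin N, v (ε k) = X 0 ^ e k 0 * X 1 ^ e k 1 * X 2 ^ e k 2)
    (htab : checkTables (n + 1) q N a (valN e s) (dvalN e s) V T l0 = true)
    (hrows : rows.map Prod.fst = List.range ((q + 1) * (n + 1)))
    (hcheck : checkRows (n + 1) q N L o1 o2 p V T b lc rows = true) :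
    Interpolation v n D :=
  interpolation_of_cert v n D hq hL hp ε a s b (valN e s) (dvalN e s) V T lc rows l0
    (fun k i => by rw [hv, eval_mono]) (fun k i c => by rw [hv, eval_pderiv_mono]) htab hrows hcheck

/-- the case in which every `v_k` is a sum of two monomials -/
theorem interpolation_of_cert_two {K : Type*} [Field K] [CharZero K] [IsAlgClosed K] {ι : Type*}
    [Fintype ι] (v : ι → MvPolynomial (Fin 3) K) (n D : ℕ) {q N L o1 o2 p : ℕ}
    (hq : D / (n - 2) = q) (hL : n - 1 - D % (n - 2) = L + 1) (hp : 2 ≤ p)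
    (ε : Fin N ≃ ι) (e e' a s b : ℕ → ℕ → ℕ) (V : ℕ → ℕ → ℕ) (T : ℕ → ℕ → ℕ → ℕ)
    (lc : ℕ → ℕ → ℕ) (rows : List (ℕ × ℕ)) (l0 : ℕ)
    (hv : ∀ k : Fin N, v (ε k) = X 0 ^ e k 0 * X 1 ^ e k 1 * X 2 ^ e k 2 +
      X 0 ^ e' k 0 * X 1 ^ e' k 1 * X 2 ^ e' k 2)
    (htab : checkTables (n + 1) q N a (fun k i => Nat.add (valN e s k i) (valN e' s k i))
      (fun c k i => Nat.add (dvalN e s c k i) (dvalN e' s c k i)) V T l0 = true)
    (hrows : rows.map Prod.fst = List.range ((q + 1) * (n + 1)))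
    (hcheck : checkRows (n + 1) q N L o1 o2 p V T b lc rows = true) :
    Interpolation v n D := by
  refine interpolation_of_cert v n D hq hL hp ε a s b _ _ V T lc rows l0 ?_ ?_ htab hrows hcheck
  · intro k i
    rw [hv, map_add, eval_mono, eval_mono, Nat.add_eq, Nat.cast_add]
  · intro k i c
    rw [hv, map_add, map_add, eval_pderiv_mono, eval_pderiv_mono, Nat.add_eq, Nat.cast_add]

end Cert

end Pool.Agent.Work.MP_709d16_ag
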