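import Mathlib

set_option autoImplicit false

/-!
Definitions for the interpolation problem for surfaces of degree `d` in `ℙᵈ`.

A surface in `ℙⁿ` is represented by the affine cone over it, a Zariski closed cone in
`Kⁿ⁺¹ = (Fin (n+1) → K)`.  All surfaces here are images of a fixed toric (monomial) surface under a
linear map `A`.
-/

namespace Pool.Agent.Work.MP_709d16_ag

open MvPolynomial

/-- The Zariski closure of a set `S ⊆ K^κ`: all points at which every polynomial vanishing on `S`
vanishes. -/
def zariskiClosure {K : Type*} [Field K] {κ : Type*} (S : Set (κ → K)) : Set (κ → K) :=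
  {z | ∀ f : MvPolynomial κ K, (∀ y ∈ S, eval y f = 0) → eval z f = 0}

/-- For a vector `v = (v_k)_{k ∈ ι}` of polynomials in three variables and a matrix `A`: the Zariski
closure in `K^κ` of the set of all `A · v(s)`, `s ∈ K³`. For `v = toric K E` or `v = scroll K a b` below this is the
affine cone over the closure of the image, under the rational map of projective spaces given by `A`,
of the toric surface parametrised by `v`. -/
def cone {K : Type*} [Field K] {κ ι : Type*} [Fintype ι] (v : ι → MvPolynomial (Fin 3) K)
    (A : Matrix κ ι K) : Set (κ → K) :=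
  zariskiClosure (Set.range fun s : Fin 3 → K => A.mulVec fun k => eval s (v k))

/-- The family of the surfaces `cone v A ⊂ ℙⁿ`, `A` a general `(n+1) × ι` matrix, satisfies
interpolation. Here `D` is to be the dimension of the family; write `D = q (n - 2) + r` with
`0 ≤ r < n - 2`. Then for `q` general points `p i` of `ℙⁿ` and a general linear subspace of
(projective) dimension `n - 2 - r`, the span of `n - 1 - r` vectors `Λ j`, there is a member of the
family that contains all the points `p i` and meets the subspace.

That `(p, Λ)` is general means that it lies outside the zero set of one nonzero polynomial `G` in all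
its coordinates. Moreover the matrix `A` of the member found can be taken outside the zero set of any
prescribed nonzero polynomial `H`: the member is itself a general one of the family. -/
def Interpolation {K : Type*} [Field K] {ι : Type*} [Fintype ι] (v : ι → MvPolynomial (Fin 3) K)
    (n D : ℕ) : Prop :=
  ∀ H : MvPolynomial (Fin (n + 1) × ι) K, H ≠ 0 →
    ∃ G : MvPolynomial ((Fin (D / (n - 2)) ⊕ Fin (n - 1 - D % (n - 2))) × Fin (n + 1)) K, G ≠ 0 ∧
      ∀ (p : Fin (D / (n - 2)) → Fin (n + 1) → K)
        (Λ : Fin (n - 1 - D % (n - 2)) → Fin (n + 1) → K),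
        eval (fun x => Sum.elim p Λ x.1 x.2) G ≠ 0 →
        ∃ A : Matrix (Fin (n + 1)) ι K, eval (fun x => A x.1 x.2) H ≠ 0 ∧
          (∀ i, p i ∈ cone v A) ∧
          ∃ z ∈ Submodule.span K (Set.range Λ), z ≠ 0 ∧ z ∈ cone v A

/-- The toric surface with exponents `E`: the monomials `X₀ X₁^i X₂^j`, where `(i, j) = E k`. -/
noncomputable def toric (K : Type*) [Field K] {N : ℕ} (E : Fin N → ℕ × ℕ) :
    Fin N → MvPolynomial (Fin 3) K :=
  fun k => X 0 * X 1 ^ (E k).1 * X 2 ^ (E k).2

/-- Six cubic forms: a basis of the cubic forms vanishing at the four points `(1:0:0)`, `(0:1:0)`,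
`(0:0:1)`, `(-1:1:1)` of the plane, no three on a line. They map the plane blown up at these four
points onto the quintic del Pezzo surface in `ℙ⁵`. -/
noncomputable def quinticDelPezzo (K : Type*) [Field K] : Fin 6 → MvPolynomial (Fin 3) K :=
  ![X 0 * X 1 * (X 0 + X 2), X 0 * X 2 * (X 0 + X 1), X 1 ^ 2 * (X 0 + X 2),
    X 2 ^ 2 * (X 0 + X 1), X 1 * X 2 * (X 0 + X 1), X 1 * X 2 * (X 0 + X 2)]

/-- The rational normal surface scroll `S(a, b) ⊂ ℙ^(a+b+1)`:
`[X₁ : X₁X₀ : ... : X₁X₀^a : X₂ : X₂X₀ : ... : X₂X₀^b]`. -/
noncomputable def scroll (K : Type*) [Field K] (a b : ℕ) :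
    Fin (a + 1) ⊕ Fin (b + 1) → MvPolynomial (Fin 3) K :=
  Sum.elim (fun j => X 1 * X 0 ^ (j : ℕ)) (fun j => X 2 * X 0 ^ (j : ℕ))

end Pool.Agent.Work.MP_709d16_ag
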