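import Pool.Agent.Work.MP_709d16_ag.Dominance
import Pool.Agent.Work.MP_709d16_ag.Defs

set_option autoImplicit false

namespace Pool.Agent.Work.MP_709d16_ag

open MvPolynomial

theorem subset_zariskiClosure {K : Type*} [Field K] {κ : Type*} (S : Set (κ → K)) :
    S ⊆ zariskiClosure S := fun _ hy _ hf => hf _ hy

section criterion

variable {K : Type*} [Field K] {ι : Type*} [Fintype ι] {M q L : ℕ}

/-- parameter variables: `A`, `s`, `s_y`, `t`, `b` -/
abbrev Par (ι : Type*) (M q L : ℕ) : Type _ :=
  (Fin M × ι) ⊕ ((Fin q × Fin 3) ⊕ (Fin 3 ⊕ (Fin L ⊕ (Fin L × Fin M))))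

abbrev gS (ι : Type*) (M L : ℕ) {q : ℕ} (i : Fin q) : Fin 3 → Par ι M q L := fun c =>
  Sum.inr (Sum.inl (i, c))
abbrev gY (ι : Type*) (M q L : ℕ) : Fin 3 → Par ι M q L := fun c =>
  Sum.inr (Sum.inr (Sum.inl c))
abbrev gT (ι : Type*) (M q : ℕ) {L : ℕ} (j : Fin L) : Par ι M q L :=
  Sum.inr (Sum.inr (Sum.inr (Sum.inl j)))
abbrev gB (ι : Type*) {M : ℕ} (q : ℕ) {L : ℕ} (j : Fin L) (l : Fin M) : Par ι M q L :=
  Sum.inr (Sum.inr (Sum.inr (Sum.inr (j, l))))

/-- the polynomial `(A v(s))_l` with `s` the variables given by `g` -/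
noncomputable def P (v : ι → MvPolynomial (Fin 3) K) (g : Fin 3 → Par ι M q L) (l : Fin M) :
    MvPolynomial (Par ι M q L) K :=
  ∑ k, X (Sum.inl (l, k)) * rename g (v k)

theorem pderiv_P_inl [DecidableEq ι] (v : ι → MvPolynomial (Fin 3) K) (g : Fin 3 → Par ι M q L)
    (hg : ∀ c x, g c ≠ Sum.inl x) (l l0 : Fin M) (k0 : ι) :
    pderiv (Sum.inl (l0, k0)) (P v g l) = if l = l0 then rename g (v k0) else 0 := by
  classical
  have h1 : ∀ k, pderiv (Sum.inl (l0, k0)) (rename g (v k)) = 0 := by
    intro k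
    apply pderiv_eq_zero_of_notMem_vars
    intro h
    obtain ⟨c, _, hc⟩ := mem_vars_rename g _ h
    exact hg c _ hc
  unfold P
  simp only [map_sum, Derivation.leibniz, h1, smul_eq_mul, mul_zero, zero_add, pderiv_X,
    Pi.single_apply, Sum.inl.injEq, Prod.mk.injEq, mul_ite, mul_one]
  split_ifs with hl
  · subst hl
    rw [Finset.sum_eq_single k0]
    · simp
    · intro k _ hk
      rw [if_neg]
      rintro ⟨_, h⟩
      exact hk h
    · simp
  · apply Finset.sum_eq_zero
    intro k _
    rw [if_neg]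
    rintro ⟨h, _⟩
    exact hl h

theorem pderiv_P_self (v : ι → MvPolynomial (Fin 3) K) (g : Fin 3 → Par ι M q L)
    (hg : ∀ c x, g c ≠ Sum.inl x) (hinj : Function.Injective g) (l : Fin M) (c : Fin 3) :
    pderiv (g c) (P v g l) = ∑ k, X (Sum.inl (l, k)) * rename g (pderiv c (v k)) := by
  classical
  unfold P
  rw [map_sum]
  apply Finset.sum_congr rfl
  intro k _
  rw [Derivation.leibniz, pderiv_rename hinj, pderiv_X_of_ne (hg c _).symm]
  simp

theorem pderiv_P_other (v : ι → MvPolynomial (Fin 3) K) (g : Fin 3 → Par ι M q L)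
    (y : (Fin q × Fin 3) ⊕ (Fin 3 ⊕ (Fin L ⊕ (Fin L × Fin M))))
    (hy : ∀ c, g c ≠ Sum.inr y) (l : Fin M) :
    pderiv (Sum.inr y) (P v g l) = 0 := by
  classical
  unfold P
  rw [map_sum]
  apply Finset.sum_eq_zero
  intro k _
  have h1 : pderiv (Sum.inr y) (rename g (v k)) = 0 := by
    apply pderiv_eq_zero_of_notMem_vars
    intro h
    obtain ⟨c, _, hc⟩ := mem_vars_rename g _ h
    exact hy c hc
  rw [Derivation.leibniz, h1, pderiv_X_of_ne (by simp)]
  simp


/-- the polynomial map `(A, s, s_y, t, b) ↦ (A v(s_i); A v(s_y) - ∑ t_j b_j; b_j)` -/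
noncomputable def Fmap (v : ι → MvPolynomial (Fin 3) K) (M q L : ℕ) :
    (Fin q ⊕ Fin (L + 1)) × Fin M → MvPolynomial (Par ι M q L) K := fun x =>
  match x with
  | (Sum.inl i, l) => P v (gS ι M L i) l
  | (Sum.inr j, l) =>
    Fin.cases (P v (gY ι M q L) l - ∑ j, X (gT ι M q j) * X (gB ι q j l))
      (fun j => X (gB ι q j l)) j

theorem eval_P (v : ι → MvPolynomial (Fin 3) K) (g : Fin 3 → Par ι M q L) (l : Fin M)
    (z : Par ι M q L → K) :
    eval z (P v g l) = ∑ k, z (Sum.inl (l, k)) * eval (fun c => z (g c)) (v k) := by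
  unfold P
  simp only [map_sum, map_mul, eval_X, eval_rename]
  rfl

theorem interp_of_jacobian [CharZero K] [IsAlgClosed K] (v : ι → MvPolynomial (Fin 3) K)
    (M q L : ℕ) (A0 : Matrix (Fin M) ι K) (s : Fin q → Fin 3 → K) (sy : Fin 3 → K)
    (b : Fin L → Fin M → K)
    (hne : ∃ l, (A0.mulVec fun k => eval sy (v k)) l ≠ 0)
    (hcrit : ∀ (θ : Fin q → Fin M → K) (θy : Fin M → K),
      (∀ i c, ∑ l, θ i l * ∑ k, A0 l k * eval (s i) (pderiv c (v k)) = 0) →
      (∀ c, ∑ l, θy l * ∑ k, A0 l k * eval sy (pderiv c (v k)) = 0) →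
      (∀ j, ∑ l, θy l * b j l = 0) →
      (∀ k l, ∑ i, eval (s i) (v k) * θ i l + eval sy (v k) * θy l = 0) →
      (∀ i, θ i = 0) ∧ θy = 0)
    (H : MvPolynomial (Fin M × ι) K) (hH : H ≠ 0) :
    ∃ G : MvPolynomial ((Fin q ⊕ Fin (L + 1)) × Fin M) K, G ≠ 0 ∧
      ∀ (p : Fin q → Fin M → K) (Λ : Fin (L + 1) → Fin M → K),
        eval (fun x => Sum.elim p Λ x.1 x.2) G ≠ 0 →
        ∃ A : Matrix (Fin M) ι K, eval (fun x => A x.1 x.2) H ≠ 0 ∧ (∀ i, p i ∈ cone v A) ∧
          ∃ z ∈ Submodule.span K (Set.range Λ), z ≠ 0 ∧ z ∈ cone v A := by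
  classical
  let z0 : Par ι M q L → K := Sum.elim (fun x => A0 x.1 x.2)
    (Sum.elim (fun x => s x.1 x.2) (Sum.elim sy (Sum.elim (fun _ => 0) (fun x => b x.1 x.2))))
  obtain ⟨l0, hl0⟩ := hne
  have hP0 : P v (gY ι M q L) l0 ≠ 0 := by
    intro h
    apply hl0
    have := congrArg (eval z0) h
    rw [eval_P, map_zero] at this
    exact this
  have hinl : Function.Injective (Sum.inl : Fin M × ι → Par ι M q L) := Sum.inl_injective
  have hH' : rename (Sum.inl : Fin M × ι → Par ι M q L) H ≠ 0 := by
    intro h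
    apply hH
    apply rename_injective _ hinl
    rw [h, map_zero]
  have hdom := dominance (Fmap v M q L) z0 ?_
    (rename (Sum.inl : Fin M × ι → Par ι M q L) H * P v (gY ι M q L) l0) (mul_ne_zero hH' hP0)
  · obtain ⟨G, hG, hGp⟩ := hdom
    refine ⟨G, hG, ?_⟩
    intro p Λ hpΛ
    obtain ⟨z, hz1, hz2⟩ := hGp _ hpΛ
    rw [map_mul, mul_ne_zero_iff] at hz1
    refine ⟨Matrix.of fun l k => z (Sum.inl (l, k)), ?_, ?_, ?_⟩
    · have h := hz1.1
      rw [eval_rename] at h
      exact h
    · intro i
      apply subset_zariskiClosure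
      refine ⟨fun c => z (gS ι M L i c), ?_⟩
      ext1 l
      have := hz2 (Sum.inl i, l)
      simp only [Fmap, Sum.elim_inl] at this
      rw [← this, eval_P]
      simp [Matrix.mulVec, dotProduct]
    · let y : Fin M → K := fun l => eval z (P v (gY ι M q L) l)
      refine ⟨y, ?_, ?_, ?_⟩
      · have hy : y = Λ 0 + ∑ j : Fin L, z (gT ι M q j) • Λ j.succ := by
          ext1 l
          have h0 := hz2 (Sum.inr 0, l)
          have hs := fun j : Fin L => hz2 (Sum.inr j.succ, l)
          simp only [Fmap, Sum.elim_inr, Fin.cases_zero, map_sub, map_sum, map_mul, eval_X] at h0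
          simp only [Fmap, Sum.elim_inr, Fin.cases_succ, eval_X] at hs
          simp only [Pi.add_apply, Finset.sum_apply, Pi.smul_apply, smul_eq_mul]
          rw [← h0]
          simp only [hs]
          change eval z (P v (gY ι M q L) l) = _
          ring
        rw [hy]
        apply Submodule.add_mem
        · exact Submodule.subset_span ⟨0, rfl⟩
        · apply Submodule.sum_mem
          intro j _
          apply Submodule.smul_mem
          exact Submodule.subset_span ⟨j.succ, rfl⟩
      · intro h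
        apply hz1.2
        exact congrFun h l0
      · apply subset_zariskiClosure
        refine ⟨fun c => z (gY ι M q L c), ?_⟩
        ext1 l
        change _ = eval z (P v (gY ι M q L) l)
        rw [eval_P]
        simp [Matrix.mulVec, dotProduct]
  · -- the Jacobian condition
    intro c hc
    have hsum : ∀ f : (Fin q ⊕ Fin (L + 1)) × Fin M → K, ∑ x, f x =
        ∑ l, ((∑ i, f (Sum.inl i, l)) + (f (Sum.inr 0, l) + ∑ j : Fin L, f (Sum.inr j.succ, l))) := by
      intro f
      rw [Fintype.sum_prod_type_right]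
      apply Finset.sum_congr rfl
      intro l _
      rw [Fintype.sum_sum_type, Fin.sum_univ_succ]
    -- values of the derivatives
    have hB : ∀ (j : Fin L) (l : Fin M), c (Sum.inr j.succ, l) = 0 := by
      intro j l
      have h := hc (gB ι q j l)
      rw [hsum] at h
      have e1 : ∀ (i : Fin q) (l' : Fin M),
          pderiv (gB ι q j l) (Fmap v M q L (Sum.inl i, l')) = 0 := by
        intro i l'
        exact pderiv_P_other v _ _ (by simp) l'
      have e2 : ∀ l' : Fin M,
          eval z0 (pderiv (gB ι q j l) (Fmap v M q L (Sum.inr 0, l'))) = 0 := by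
        intro l'
        simp only [Fmap, Fin.cases_zero, map_sub, map_sum]
        rw [pderiv_P_other v _ _ (by simp) l']
        rw [map_zero, zero_sub, neg_eq_zero]
        apply Finset.sum_eq_zero
        intro x _
        rw [Derivation.leibniz, pderiv_X_of_ne (by simp : gT ι M q x ≠ gB ι q j l)]
        simp [z0]
      have e3 : ∀ (j' : Fin L) (l' : Fin M),
          eval z0 (pderiv (gB ι q j l) (Fmap v M q L (Sum.inr j'.succ, l'))) =
            if j' = j ∧ l' = l then 1 else 0 := by
        intro j' l'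
        simp only [Fmap, Fin.cases_succ, pderiv_X, Pi.single_apply]
        simp only [Sum.inr.injEq, Prod.mk.injEq]
        split_ifs <;> simp
      simp only [e1, e2, e3, map_zero, mul_zero, Finset.sum_const_zero, zero_add, mul_ite,
        mul_one] at h
      rw [Finset.sum_eq_single l, Finset.sum_eq_single j] at h
      · simpa using h
      · intro j' _ hj'
        rw [if_neg]
        rintro ⟨h1, _⟩
        exact hj' h1
      · simp
      · intro l' _ hl'
        apply Finset.sum_eq_zero
        intro j' _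
        rw [if_neg]
        rintro ⟨_, h1⟩
        exact hl' h1
      · simp
    -- the remaining derivatives only involve `P` and the product `t_j b_j`
    have hx : ∀ x : Par ι M q L, (∀ j l, x ≠ gB ι q j l) →
        ∑ l, ((∑ i, c (Sum.inl i, l) * eval z0 (pderiv x (P v (gS ι M L i) l))) +
          c (Sum.inr 0, l) * eval z0 (pderiv x (P v (gY ι M q L) l -
            ∑ j, X (gT ι M q j) * X (gB ι q j l)))) = 0 := by
      intro x hxb
      have h := hc x
      rw [hsum] at h
      rw [← h]
      apply Finset.sum_congr rfl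
      intro l _
      have e3 : ∀ (j' : Fin L),
          c (Sum.inr j'.succ, l) * eval z0 (pderiv x (Fmap v M q L (Sum.inr j'.succ, l))) = 0 := by
        intro j'
        rw [hB, zero_mul]
      simp only [e3, Finset.sum_const_zero, add_zero]
      rfl
    have hprod : ∀ x : Par ι M q L, (∀ j l, x ≠ gB ι q j l) → (∀ j, x ≠ gT ι M q j) → ∀ l,
        pderiv x (∑ j, X (gT ι M q j) * X (gB ι q j l) : MvPolynomial (Par ι M q L) K) = 0 := by
      intro x hxb hxt l
      rw [map_sum]
      apply Finset.sum_eq_zero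
      intro j _
      rw [Derivation.leibniz, pderiv_X_of_ne (hxb j l).symm, pderiv_X_of_ne (hxt j).symm]
      simp
    have h1 : ∀ i c', ∑ l, c (Sum.inl i, l) * ∑ k, A0 l k * eval (s i) (pderiv c' (v k)) = 0 := by
      intro i c'
      have h := hx (gS ι M L i c') (by simp)
      rw [← h]
      apply Finset.sum_congr rfl
      intro l _
      rw [map_sub, hprod _ (by simp) (by simp), sub_zero,
        pderiv_P_other v (gY ι M q L) (Sum.inl (i, c')) (by simp) l, map_zero, mul_zero, add_zero]
      rw [Finset.sum_eq_single i]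
      · rw [pderiv_P_self v (gS ι M L i) (by simp) (by intro a b; simp) l c']
        simp only [map_sum, map_mul, eval_X, eval_rename]
        rfl
      · intro i' _ hi'
        rw [pderiv_P_other v (gS ι M L i') (Sum.inl (i, c')) (by simp [hi']) l, map_zero, mul_zero]
      · simp
    have h2 : ∀ c', ∑ l, c (Sum.inr 0, l) * ∑ k, A0 l k * eval sy (pderiv c' (v k)) = 0 := by
      intro c'
      have h := hx (gY ι M q L c') (by simp)
      rw [← h]
      apply Finset.sum_congr rfl
      intro l _
      rw [map_sub, hprod _ (by simp) (by simp), sub_zero]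
      rw [pderiv_P_self v (gY ι M q L) (by simp) (by intro a b; simp) l c']
      have e1 : ∑ i, c (Sum.inl i, l) *
          eval z0 (pderiv (gY ι M q L c') (P v (gS ι M L i) l)) = 0 := by
        apply Finset.sum_eq_zero
        intro i' _
        rw [pderiv_P_other v (gS ι M L i') (Sum.inr (Sum.inl c')) (by simp) l, map_zero, mul_zero]
      rw [e1, zero_add]
      simp only [map_sum, map_mul, eval_X, eval_rename]
      rfl
    have h3 : ∀ j, ∑ l, c (Sum.inr 0, l) * b j l = 0 := by
      intro j
      have h := hx (gT ι M q j) (by simp)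
      rw [← neg_eq_zero, ← Finset.sum_neg_distrib, ← h]
      apply Finset.sum_congr rfl
      intro l _
      rw [Finset.sum_eq_zero, zero_add]
      · rw [map_sub, pderiv_P_other v (gY ι M q L) (Sum.inr (Sum.inr (Sum.inl j))) (by simp) l,
          zero_sub, map_neg, map_sum, map_sum, Finset.sum_eq_single j]
        · rw [Derivation.leibniz, pderiv_X_of_ne (by simp : gB ι q j l ≠ gT ι M q j), pderiv_X_self]
          simp [z0]
        · intro j' _ hj'
          rw [Derivation.leibniz, pderiv_X_of_ne (by simp : gB ι q j' l ≠ gT ι M q j),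
            pderiv_X_of_ne (by simp [hj'] : gT ι M q j' ≠ gT ι M q j)]
          simp
        · simp
      · intro i' _
        rw [pderiv_P_other v (gS ι M L i') (Sum.inr (Sum.inr (Sum.inl j))) (by simp) l, map_zero,
          mul_zero]
    have h4 : ∀ k l, ∑ i, eval (s i) (v k) * c (Sum.inl i, l) +
        eval sy (v k) * c (Sum.inr 0, l) = 0 := by
      intro k0 l0
      have h := hx (Sum.inl (l0, k0)) (by simp)
      rw [← h]
      have e1 : ∀ l : Fin M, (∑ i, c (Sum.inl i, l) *
            eval z0 (pderiv (Sum.inl (l0, k0)) (P v (gS ι M L i) l))) +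
          c (Sum.inr 0, l) * eval z0 (pderiv (Sum.inl (l0, k0)) (P v (gY ι M q L) l -
            ∑ j, X (gT ι M q j) * X (gB ι q j l))) =
          if l = l0 then ∑ i, eval (s i) (v k0) * c (Sum.inl i, l) +
        eval sy (v k0) * c (Sum.inr 0, l) else 0 := by
        intro l
        rw [map_sub, hprod _ (by simp) (by simp), sub_zero]
        rw [pderiv_P_inl v (gY ι M q L) (by simp) l l0 k0]
        have e2 : ∀ i : Fin q, pderiv (Sum.inl (l0, k0)) (P v (gS ι M L i) l) = _ := fun i =>
          pderiv_P_inl v (gS ι M L i) (by simp) l l0 k0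
        simp only [e2]
        split_ifs with hl
        · simp only [eval_rename]
          congr 1
          · apply Finset.sum_congr rfl
            intro i _
            rw [mul_comm]
            rfl
          · rw [mul_comm]
            rfl
        · simp
      simp only [e1]
      rw [Finset.sum_ite_eq' Finset.univ l0]
      simp
    obtain ⟨hθ, hθy⟩ := hcrit _ _ h1 h2 h3 h4
    ext1 x
    obtain ⟨x1, l⟩ := x
    rcases x1 with i | j
    · exact congrFun (hθ i) l
    · refine Fin.cases ?_ ?_ j
      · exact congrFun hθy l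
      · intro j'
        exact hB j' l


theorem interpolation_of_jacobian [CharZero K] [IsAlgClosed K] (v : ι → MvPolynomial (Fin 3) K)
    (n D q L : ℕ) (hq : D / (n - 2) = q) (hL : n - 1 - D % (n - 2) = L + 1)
    (A0 : Matrix (Fin (n + 1)) ι K) (s : Fin q → Fin 3 → K) (sy : Fin 3 → K)
    (b : Fin L → Fin (n + 1) → K)
    (hne : ∃ l, (A0.mulVec fun k => eval sy (v k)) l ≠ 0)
    (hcrit : ∀ (θ : Fin q → Fin (n + 1) → K) (θy : Fin (n + 1) → K),
      (∀ i c, ∑ l, θ i l * ∑ k, A0 l k * eval (s i) (pderiv c (v k)) = 0) →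
      (∀ c, ∑ l, θy l * ∑ k, A0 l k * eval sy (pderiv c (v k)) = 0) →
      (∀ j, ∑ l, θy l * b j l = 0) →
      (∀ k l, ∑ i, eval (s i) (v k) * θ i l + eval sy (v k) * θy l = 0) →
      (∀ i, θ i = 0) ∧ θy = 0) :
    Interpolation v n D := by
  subst hq
  unfold Interpolation
  rw [hL]
  intro H hH
  exact interp_of_jacobian v (n + 1) (D / (n - 2)) L A0 s sy b hne hcrit H hH

/-- the version in which `A` is the deletion of one coordinate -/
theorem interpolation_of_deletion [CharZero K] [IsAlgClosed K] [DecidableEq ι]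
    (v : ι → MvPolynomial (Fin 3) K)
    (n D q L : ℕ) (hq : D / (n - 2) = q) (hL : n - 1 - D % (n - 2) = L + 1)
    (k0 : ι) (hcard : Fintype.card ι = n + 2) (s : Fin q → Fin 3 → K) (sy : Fin 3 → K)
    (b : Fin L → ι → K)
    (hne : ∃ k, k ≠ k0 ∧ eval sy (v k) ≠ 0)
    (hcrit : ∀ (θ : Fin q → ι → K) (θy : ι → K), (∀ i, θ i k0 = 0) → θy k0 = 0 →
      (∀ i c, ∑ k, θ i k * eval (s i) (pderiv c (v k)) = 0) →
      (∀ c, ∑ k, θy k * eval sy (pderiv c (v k)) = 0) →
      (∀ j, ∑ k, θy k * b j k = 0) →
      (∀ k l, ∑ i, eval (s i) (v k) * θ i l + eval sy (v k) * θy l = 0) →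
      (∀ i, θ i = 0) ∧ θy = 0) :
    Interpolation v n D := by
  classical
  have hc : Fintype.card {k // k ≠ k0} = n + 1 := by
    rw [Fintype.card_subtype_compl, Fintype.card_subtype_eq, hcard]
    rfl
  let e : Fin (n + 1) ≃ {k // k ≠ k0} := (Fintype.equivFinOfCardEq hc).symm
  let A0 : Matrix (Fin (n + 1)) ι K := Matrix.of fun l k => if (e l : ι) = k then 1 else 0
  have hA : ∀ (f : ι → K) l, ∑ k, A0 l k * f k = f (e l) := by
    intro f l
    simp [A0]
  let ext : (Fin (n + 1) → K) → ι → K := fun θ k =>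
    if h : k = k0 then 0 else θ (e.symm ⟨k, h⟩)
  have hext0 : ∀ θ, ext θ k0 = 0 := fun θ => by simp [ext]
  have hexte : ∀ θ l, ext θ (e l) = θ l := by
    intro θ l
    simp only [ext]
    rw [dif_neg (e l).2]
    simp
  have hsum : ∀ (θ : Fin (n + 1) → K) (f : ι → K), ∑ k, ext θ k * f k = ∑ l, θ l * f (e l) := by
    intro θ f
    have h1 : ∑ k, ext θ k * f k = ∑ k : {k // k ≠ k0}, ext θ k * f k := by
      rw [← Finset.sum_subtype (Finset.univ.erase k0) (by simp) (fun k => ext θ k * f k)]
      rw [← Finset.add_sum_erase Finset.univ (fun k => ext θ k * f k) (Finset.mem_univ k0)]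
      rw [hext0, zero_mul, zero_add]
    rw [h1, ← e.sum_comp]
    apply Finset.sum_congr rfl
    intro l _
    rw [hexte]
  refine interpolation_of_jacobian v n D q L hq hL A0 s sy (fun j l => b j (e l)) ?_ ?_
  · obtain ⟨k, hk, hne⟩ := hne
    refine ⟨e.symm ⟨k, hk⟩, ?_⟩
    change ∑ k', A0 (e.symm ⟨k, hk⟩) k' * eval sy (v k') ≠ 0
    rw [hA]
    simpa using hne
  · intro θ θy h1 h2 h3 h4
    have h5 := hcrit (fun i => ext (θ i)) (ext θy) (fun i => hext0 _) (hext0 _) ?_ ?_ ?_ ?_
    · constructor
      · intro i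
        ext1 l
        have := congrFun (h5.1 i) (e l)
        rwa [hexte] at this
      · ext1 l
        have := congrFun h5.2 (e l)
        rwa [hexte] at this
    · intro i c
      rw [hsum, ← h1 i c]
      apply Finset.sum_congr rfl
      intro l _
      rw [hA]
    · intro c
      rw [hsum, ← h2 c]
      apply Finset.sum_congr rfl
      intro l _
      rw [hA]
    · intro j
      rw [hsum]
      exact h3 j
    · intro k l
      by_cases hl : l = k0
      · subst hl
        simp [hext0]
      · have := h4 k (e.symm ⟨l, hl⟩)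
        simpa [ext, hl] using this

end criterion

end Pool.Agent.Work.MP_709d16_ag
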