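import Mathlib

set_option autoImplicit false

namespace Pool.Agent.Work.MP_709d16_ag

open MvPolynomial

theorem exists_basicOpen_subset_range {A B : Type*} [CommRing A] [IsDomain A] [CommRing B]
    [IsDomain B] (f : A →+* B) (hf : f.FinitePresentation) (hinj : Function.Injective f) :
    ∃ g : A, g ≠ 0 ∧
      ∀ x : PrimeSpectrum A, g ∉ x.asIdeal → ∃ z : PrimeSpectrum B, PrimeSpectrum.comap f z = x := by
  obtain ⟨S, hS⟩ := PrimeSpectrum.exists_constructibleSetData_iff.mpr
    (PrimeSpectrum.isConstructible_range_comap hf)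
  have hbot : (⟨⊥, Ideal.isPrime_bot⟩ : PrimeSpectrum A) ∈ S.toSet := by
    rw [hS]
    refine ⟨⟨⊥, Ideal.isPrime_bot⟩, ?_⟩
    ext x
    simp only [PrimeSpectrum.comap_asIdeal, Ideal.mem_comap, Ideal.mem_bot]
    exact map_eq_zero_iff f hinj
  unfold PrimeSpectrum.ConstructibleSetData.toSet at hbot
  rw [Set.mem_iUnion₂] at hbot
  obtain ⟨C, hC, hmem⟩ := hbot
  unfold PrimeSpectrum.BasicConstructibleSetData.toSet at hmem
  obtain ⟨h1, h2⟩ := hmem
  have hg : ∀ i, C.g i = 0 := by
    intro i
    have := h1 (Set.mem_range_self i)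
    simpa using this
  have hf0 : C.f ≠ 0 := by
    intro h0
    apply h2
    rw [PrimeSpectrum.mem_zeroLocus]
    intro a ha
    rw [Set.mem_singleton_iff] at ha
    subst ha
    simpa using h0
  refine ⟨C.f, hf0, ?_⟩
  intro x hx
  have hxS : x ∈ S.toSet := by
    unfold PrimeSpectrum.ConstructibleSetData.toSet
    rw [Set.mem_iUnion₂]
    refine ⟨C, hC, ?_⟩
    unfold PrimeSpectrum.BasicConstructibleSetData.toSet
    refine ⟨?_, ?_⟩
    · rw [PrimeSpectrum.mem_zeroLocus]
      rintro _ ⟨i, rfl⟩
      rw [hg i]
      exact x.asIdeal.zero_mem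
    · rw [PrimeSpectrum.mem_zeroLocus]
      intro h
      exact hx (h (Set.mem_singleton _))
  rw [hS] at hxS
  exact hxS

theorem exists_algHom_of_finiteType {K : Type*} [Field K] [IsAlgClosed K] (R : Type*) [CommRing R]
    [Algebra K R] [Algebra.FiniteType K R] [Nontrivial R] : Nonempty (R →ₐ[K] K) := by
  obtain ⟨m, hm⟩ := Ideal.exists_maximal R
  let _ : Field (R ⧸ m) := Ideal.Quotient.field m
  have : Algebra.FiniteType K (R ⧸ m) := inferInstance
  have : Module.Finite K (R ⧸ m) := finite_of_finite_type_of_isJacobsonRing K (R ⧸ m)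
  have hb : Function.Bijective (algebraMap K (R ⧸ m)) :=
    IsAlgClosed.algebraMap_bijective_of_isIntegral
  let e : K ≃ₐ[K] (R ⧸ m) := AlgEquiv.ofBijective (Algebra.ofId K (R ⧸ m)) hb
  exact ⟨e.symm.toAlgHom.comp (Ideal.Quotient.mkₐ K m)⟩

theorem image_contains_open {K : Type*} [Field K] [IsAlgClosed K] {σ τ : Type*} [Finite σ]
    [Finite τ] (F : τ → MvPolynomial σ K)
    (hF : Function.Injective (aeval F : MvPolynomial τ K →ₐ[K] MvPolynomial σ K))
    (H : MvPolynomial σ K) (hH : H ≠ 0) :
    ∃ G : MvPolynomial τ K, G ≠ 0 ∧ ∀ y : τ → K, eval y G ≠ 0 →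
      ∃ z : σ → K, eval z H ≠ 0 ∧ ∀ j, eval z (F j) = y j := by
  classical
  let B := MvPolynomial σ K
  let L := Localization.Away H
  have : IsDomain L := IsLocalization.isDomain_localization
    (Submonoid.powers_le.mpr (mem_nonZeroDivisors_of_ne_zero hH))
  have hinjL : Function.Injective (algebraMap B L) :=
    IsLocalization.injective L (Submonoid.powers_le.mpr (mem_nonZeroDivisors_of_ne_zero hH))
  let φ : MvPolynomial τ K →ₐ[K] L := (IsScalarTower.toAlgHom K B L).comp (aeval F)
  have hφinj : Function.Injective φ := hinjL.comp hF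
  have : Algebra.FinitePresentation K B := inferInstance
  have : Algebra.FinitePresentation B L := IsLocalization.Away.finitePresentation H
  have hfpL : Algebra.FinitePresentation K L := Algebra.FinitePresentation.trans K B L
  have hft : Algebra.FiniteType K L := inferInstance
  have hφft : φ.toRingHom.FiniteType := by
    have : (φ.toRingHom.comp (algebraMap K (MvPolynomial τ K))).FiniteType := by
      have h2 : φ.toRingHom.comp (algebraMap K (MvPolynomial τ K)) = algebraMap K L := by
        ext x; simp
      rw [h2]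
      exact RingHom.finiteType_algebraMap.mpr hft
    exact RingHom.FiniteType.of_comp_finiteType this
  have hφfp : φ.toRingHom.FinitePresentation :=
    RingHom.FinitePresentation.of_finiteType.mp hφft
  obtain ⟨G, hG, hGim⟩ := exists_basicOpen_subset_range φ.toRingHom hφfp hφinj
  refine ⟨G, hG, ?_⟩
  intro y hy
  have hprime : (RingHom.ker (eval y)).IsPrime := RingHom.ker_isPrime _
  obtain ⟨q, hq⟩ := hGim ⟨RingHom.ker (eval y), hprime⟩ (by simpa [RingHom.mem_ker] using hy)
  have := q.isPrime
  have : Nontrivial (L ⧸ q.asIdeal) := Ideal.Quotient.nontrivial_iff.mpr q.isPrime.ne_top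
  obtain ⟨ψ0⟩ := exists_algHom_of_finiteType (K := K) (L ⧸ q.asIdeal)
  let ψ : L →ₐ[K] K := ψ0.comp (Ideal.Quotient.mkₐ K q.asIdeal)
  have hψ : ∀ P : MvPolynomial τ K, ψ (φ P) = eval y P := by
    intro P
    have hmem : P - C (eval y P) ∈ RingHom.ker (eval y) := by
      rw [RingHom.mem_ker]; simp
    have hmem2 : P - C (eval y P) ∈ (PrimeSpectrum.comap φ.toRingHom q).asIdeal := by
      rw [hq]; exact hmem
    rw [PrimeSpectrum.comap_asIdeal, Ideal.mem_comap] at hmem2
    have h3 : ψ (φ (P - C (eval y P))) = 0 := by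
      have : Ideal.Quotient.mkₐ K q.asIdeal (φ (P - C (eval y P))) = 0 := by
        rw [Ideal.Quotient.mkₐ_eq_mk, Ideal.Quotient.eq_zero_iff_mem]
        exact hmem2
      change ψ0 (Ideal.Quotient.mkₐ K q.asIdeal (φ (P - C (eval y P)))) = 0
      rw [this, map_zero]
    rw [map_sub, map_sub, sub_eq_zero] at h3
    rw [h3]
    have : φ (C (eval y P)) = algebraMap K L (eval y P) := by
      have := φ.commutes (eval y P)
      rwa [MvPolynomial.algebraMap_eq] at this
    rw [this, ψ.commutes]
    rfl
  let z : σ → K := fun i => ψ (algebraMap B L (X i))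
  have hz : ∀ P : B, ψ (algebraMap B L P) = eval z P := by
    intro P
    have h1 : (ψ.comp (IsScalarTower.toAlgHom K B L)) = aeval z := by
      apply MvPolynomial.algHom_ext
      intro i
      rw [MvPolynomial.aeval_X]
      rfl
    have h2 := DFunLike.congr_fun h1 P
    rw [← MvPolynomial.coe_aeval_eq_eval]
    exact h2
  refine ⟨z, ?_, ?_⟩
  · rw [← hz]
    have hu : IsUnit (algebraMap B L H) := IsLocalization.Away.algebraMap_isUnit H
    exact (hu.map ψ).ne_zero
  · intro j
    rw [← hz]
    have := hψ (X j)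
    simpa [φ] using this

/-- Chain rule. -/
theorem pderiv_aeval {R : Type*} [CommRing R] {σ τ : Type*} [Fintype τ]
    (F : τ → MvPolynomial σ R) (P : MvPolynomial τ R) (i : σ) :
    pderiv i (aeval F P) = ∑ j, aeval F (pderiv j P) * pderiv i (F j) := by
  classical
  induction P using MvPolynomial.induction_on with
  | C a => simp [MvPolynomial.algebraMap_eq]
  | add p q hp hq =>
    simp only [map_add, hp, hq, add_mul, Finset.sum_add_distrib]
  | mul_X p j hp =>
    simp only [map_mul, Derivation.leibniz, aeval_X, hp, smul_eq_mul, map_add, pderiv_X]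
    have h1 : ∑ k, (aeval F p * aeval F (Pi.single (M := fun _ => MvPolynomial τ R) k 1 j)
        + F j * aeval F (pderiv k p)) * pderiv i (F k)
        = aeval F p * pderiv i (F j) + F j * ∑ k, aeval F (pderiv k p) * pderiv i (F k) := by
      simp only [add_mul, Finset.sum_add_distrib, Finset.mul_sum]
      congr 1
      · rw [Finset.sum_eq_single j]
        · simp
        · intro b _ hb
          simp [hb.symm]
        · simp
      · apply Finset.sum_congr rfl
        intro k _
        ring
    convert h1.symm using 1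

/-- In characteristic zero a polynomial with vanishing partial derivatives is constant. -/
theorem eq_C_of_pderiv_eq_zero {K : Type*} [Field K] [CharZero K] {τ : Type*}
    (P : MvPolynomial τ K) (h : ∀ j, pderiv j P = 0) : P = C (coeff 0 P) := by
  classical
  ext m
  rw [coeff_C]
  split_ifs with hm
  · rw [hm]
  · obtain ⟨j, hj⟩ : ∃ j, m j ≠ 0 := by
      by_contra hcon
      push Not at hcon
      apply hm
      ext j
      simp [hcon j]
    have hle : Finsupp.single j 1 ≤ m := by
      rw [Finsupp.single_le_iff]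
      omega
    have h1 := congrArg (coeff (m - Finsupp.single j 1)) (h j)
    rw [coeff_pderiv, tsub_add_cancel_of_le hle, coeff_zero, mul_eq_zero] at h1
    rcases h1 with h1 | h1
    · rw [h1]
    · exfalso
      have : ((((m - Finsupp.single j 1 : τ →₀ ℕ) j) + 1 : ℕ) : K) = 0 := by
        push_cast
        exact h1
      rw [Nat.cast_eq_zero] at this
      omega

theorem totalDegree_pderiv_le {K : Type*} [CommSemiring K] {τ : Type*}
    (P : MvPolynomial τ K) (j : τ) (n : ℕ) (hP : P.totalDegree ≤ n + 1) :
    (pderiv j P).totalDegree ≤ n := by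
  classical
  rw [totalDegree, Finset.sup_le_iff]
  intro m hm
  rw [mem_support_iff, coeff_pderiv] at hm
  have h1 : coeff (m + Finsupp.single j 1) P ≠ 0 := fun h => hm (by rw [h, zero_mul])
  have h2 := le_totalDegree (mem_support_iff.mpr h1)
  have h3 : ((m + Finsupp.single j 1).sum fun _ e => e) = (m.sum fun _ e => e) + 1 := by
    rw [Finsupp.sum_add_index' (fun _ => rfl) (fun _ _ _ => rfl), Finsupp.sum_single_index rfl]
  omega

/-- Jacobian criterion for algebraic independence (characteristic zero). -/
theorem aeval_injective_of_jacobian {K : Type*} [Field K] [CharZero K] {σ τ : Type*} [Fintype σ]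
    [Fintype τ] (F : τ → MvPolynomial σ K) (z0 : σ → K)
    (hJ : ∀ c : τ → K, (∀ i, ∑ j, c j * eval z0 (pderiv i (F j)) = 0) → c = 0) :
    Function.Injective (aeval F : MvPolynomial τ K →ₐ[K] MvPolynomial σ K) := by
  classical
  -- a right inverse of the Jacobian matrix
  let J : Matrix τ σ K := Matrix.of fun j i => eval z0 (pderiv i (F j))
  have hinj : Function.Injective J.vecMul := by
    have h0 : ∀ c : τ → K, J.vecMulLinear c = 0 → c = 0 := by
      intro c hc
      apply hJ
      intro i
      have := congrFun hc i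
      simpa [Matrix.vecMul, dotProduct, J] using this
    exact (injective_iff_map_eq_zero J.vecMulLinear).mpr h0
  obtain ⟨R, hR⟩ : ∃ R : Matrix σ τ K, J * R = 1 := by
    rw [Matrix.vecMul_injective_iff] at hinj
    rw [← Matrix.mulVec_surjective_iff_exists_right_inverse]
    have hrank := LinearIndependent.rank_matrix hinj
    have h1 : LinearMap.range J.mulVecLin = ⊤ := by
      apply Submodule.eq_top_of_finrank_eq
      rw [Module.finrank_pi]
      exact hrank
    intro y
    obtain ⟨x, hx⟩ := LinearMap.range_eq_top.mp h1 y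
    exact ⟨x, hx⟩
  let PJ : Matrix τ σ (MvPolynomial σ K) := Matrix.of fun j i => pderiv i (F j)
  let PR : Matrix σ τ (MvPolynomial σ K) := R.map C
  have hdet : (PJ * PR).det ≠ 0 := by
    intro h0
    have h1 : (eval z0) (PJ * PR).det = 1 := by
      rw [RingHom.map_det]
      have : (eval z0).mapMatrix (PJ * PR) = 1 := by
        rw [← hR]
        ext a b
        simp [Matrix.mul_apply, PJ, PR, J]
      rw [this, Matrix.det_one]
    rw [h0, map_zero] at h1
    exact zero_ne_one h1
  have key : ∀ P : MvPolynomial τ K, aeval F P = 0 → ∀ j, aeval F (pderiv j P) = 0 := by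
    intro P hP
    have h1 : Matrix.vecMul (fun j => aeval F (pderiv j P)) PJ = 0 := by
      ext1 i
      have h2 := pderiv_aeval F P i
      rw [hP, map_zero] at h2
      simpa [Matrix.vecMul, dotProduct, PJ] using h2.symm
    have h3 : Matrix.vecMul (fun j => aeval F (pderiv j P)) (PJ * PR) = 0 := by
      rw [← Matrix.vecMul_vecMul, h1, Matrix.zero_vecMul]
    have h4 := Matrix.eq_zero_of_vecMul_eq_zero hdet h3
    intro j
    exact congrFun h4 j
  have main : ∀ n : ℕ, ∀ P : MvPolynomial τ K, P.totalDegree ≤ n → aeval F P = 0 → P = 0 := by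
    intro n
    induction n with
    | zero =>
      intro P hP h0
      rw [Nat.le_zero, totalDegree_eq_zero_iff_eq_C] at hP
      rw [hP, aeval_C, MvPolynomial.algebraMap_eq, C_eq_zero] at h0
      rw [hP, h0, C_0]
    | succ n ih =>
      intro P hP h0
      have h1 : ∀ j, pderiv j P = 0 := fun j =>
        ih _ (totalDegree_pderiv_le P j n hP) (key P h0 j)
      have h2 := eq_C_of_pderiv_eq_zero P h1
      rw [h2, aeval_C, MvPolynomial.algebraMap_eq, C_eq_zero] at h0
      rw [h2, h0, C_0]
  rw [injective_iff_map_eq_zero]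
  intro P hP
  exact main _ P le_rfl hP

/-- Dominance: a polynomial map whose Jacobian is onto at one point hits a nonempty open set,
with preimages in any prescribed nonempty open set. -/
theorem dominance {K : Type*} [Field K] [CharZero K] [IsAlgClosed K] {σ τ : Type*} [Fintype σ]
    [Fintype τ] (F : τ → MvPolynomial σ K) (z0 : σ → K)
    (hJ : ∀ c : τ → K, (∀ i, ∑ j, c j * eval z0 (pderiv i (F j)) = 0) → c = 0)
    (H : MvPolynomial σ K) (hH : H ≠ 0) :
    ∃ G : MvPolynomial τ K, G ≠ 0 ∧ ∀ y : τ → K, eval y G ≠ 0 →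
      ∃ z : σ → K, eval z H ≠ 0 ∧ ∀ j, eval z (F j) = y j :=
  image_contains_open F (aeval_injective_of_jacobian F z0 hJ) H hH

end Pool.Agent.Work.MP_709d16_ag
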