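import Mathlib

set_option autoImplicit false

namespace Pool.Agent.Work.MP_709d16_ag

open Polynomial

namespace ScrollCore

variable {K : Type*} [Field K]

/-- inverse weights `1/∏_{j≠i}(x_i-x_j)` -/
noncomputable def eps {m : ℕ} (x : Fin m → K) (i : Fin m) : K :=
  (∏ j ∈ Finset.univ.erase i, (x i - x j))⁻¹

theorem eps_ne_zero {m : ℕ} {x : Fin m → K} (hx : Function.Injective x) (i : Fin m) :
    eps x i ≠ 0 := by
  unfold eps
  apply inv_ne_zero
  rw [Finset.prod_ne_zero_iff]
  intro j hj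
  have := Finset.ne_of_mem_erase hj
  exact sub_ne_zero_of_ne fun h => this (hx h).symm

theorem sum_eps {m : ℕ} {x : Fin m → K} (hx : Function.Injective x) {P : K[X]}
    (hP : P.degree < m) : ∑ i, eps x i * P.eval (x i) = P.coeff (m - 1) := by
  have h := Lagrange.coeff_eq_sum (s := Finset.univ) (v := x) hx.injOn
    (by simpa using hP)
  simp only [Finset.card_univ, Fintype.card_fin] at h
  rw [h]
  apply Finset.sum_congr rfl
  intro i _
  rw [eps, div_eq_mul_inv, mul_comm]

theorem degree_lt_of_sums {m : ℕ} {x : Fin m → K} (hx : Function.Injective x) {P : K[X]}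
    (hP : P.degree < m) (c : ℕ) (hc : c ≤ m)
    (h : ∀ j < c, ∑ i, eps x i * (P.eval (x i) * x i ^ j) = 0) : P.degree < (m - c : ℕ) := by
  induction c with
  | zero => simpa using hP
  | succ c ih =>
    have h1 := ih (by omega) fun j hj => h j (by omega)
    have h2 := h c (by omega)
    rw [degree_lt_iff_coeff_zero] at h1 ⊢
    have h3 : (P * X ^ c).degree < (m : WithBot ℕ) := by
      rw [degree_lt_iff_coeff_zero]
      intro n hn
      rw [coeff_mul_X_pow']
      split_ifs
      · apply h1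
        omega
      · rfl
    have h4 := sum_eps hx h3
    simp only [eval_mul, eval_pow, eval_X] at h4
    rw [h2, coeff_mul_X_pow', if_pos (by omega)] at h4
    intro n hn
    rcases Nat.lt_or_ge n (m - c) with h5 | h5
    · have : n = m - 1 - c := by omega
      rw [this]
      exact h4.symm
    · exact h1 n h5

theorem eq_of_eval_eq {m : ℕ} {x : Fin m → K} (hx : Function.Injective x) {P : K[X]}
    (hP : P.degree < m) (h : ∀ i, P.eval (x i) = 0) : P = 0 := by
  refine Polynomial.eq_zero_of_degree_lt_of_eval_index_eq_zero (s := Finset.univ) (v := x)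
    hx.injOn ?_ ?_
  · rw [Finset.card_univ, Fintype.card_fin]
    exact hP
  · intro i _
    exact h i

theorem step1 {a b : ℕ} (hab : a ≤ b) {m : ℕ} (hm : m = a + b + 6) {lam : K}
    {x : Fin m → K} (hx : Function.Injective x)
    (hroot : ∀ i, x i ^ (a + 3) * (x i ^ (b + 3) + lam * x i ^ b) = 1 - lam * x i ^ (a + 2))
    (μ : Fin m → K)
    (h0 : ∀ j < a + 1, ∑ i, -(x i ^ (b + 3) + lam * x i ^ b) * x i ^ j * μ i = 0)
    (h1 : ∀ j < b + 1, ∑ i, x i ^ j * μ i = 0) :
    ∃ r : Fin 4 → K, ∀ i, μ i = eps x i * (r 0 + x i * r 1 + x i ^ (a + 3) * (r 2 + x i * r 3)) := by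
  let R : K[X] := Lagrange.interpolate Finset.univ x (fun i => μ i / eps x i)
  have hRdeg : R.degree < m := by
    have := Lagrange.degree_interpolate_lt (s := Finset.univ) (v := x) (fun i => μ i / eps x i)
      hx.injOn
    rw [Finset.card_univ, Fintype.card_fin] at this
    exact this
  have hReval : ∀ i, R.eval (x i) = μ i / eps x i := fun i =>
    Lagrange.eval_interpolate_at_node _ hx.injOn (Finset.mem_univ i)
  have hRe : ∀ i, eps x i * R.eval (x i) = μ i := by
    intro i
    rw [hReval, mul_div_cancel₀ _ (eps_ne_zero hx i)]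
  have hR5 : R.degree < (a + 5 : ℕ) := by
    have := degree_lt_of_sums hx hRdeg (b + 1) (by omega) (by
      intro j hj
      rw [← h1 j hj]
      apply Finset.sum_congr rfl
      intro i _
      rw [← mul_assoc, hRe, mul_comm])
    have e : m - (b + 1) = a + 5 := by omega
    rwa [e] at this
  rw [degree_lt_iff_coeff_zero] at hR5
  let R1 : K[X] := C (R.coeff (a + 3)) + C (R.coeff (a + 4)) * X
  let R0 : K[X] := R - X ^ (a + 3) * R1
  have hR0 : R0.degree < (a + 3 : ℕ) := by
    rw [degree_lt_iff_coeff_zero]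
    intro n hn
    simp only [R0, R1, coeff_sub, coeff_X_pow_mul', if_pos hn, coeff_add, coeff_C, coeff_C_mul,
      coeff_X]
    rcases Nat.lt_or_ge n (a + 5) with h5 | h5
    · have : n = a + 3 ∨ n = a + 4 := by omega
      rcases this with rfl | rfl
      · simp
      · have e : a + 4 - (a + 3) = 1 := by omega
        simp [e]
    · rw [hR5 n h5, if_neg (by omega), if_neg (by omega)]
      simp
  let hi : K[X] := X ^ (b + 3) + C lam * X ^ b
  let lo : K[X] := C lam * X ^ (a + 2) - 1
  have hhi : hi.degree = (b + 3 : ℕ) := by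
    have : hi = X ^ (b + 3) + C lam * X ^ b := rfl
    rw [this, degree_add_eq_left_of_degree_lt]
    · rw [degree_X_pow]
    · rw [degree_X_pow]
      refine lt_of_le_of_lt (degree_C_mul_X_pow_le b lam) ?_
      exact_mod_cast (by omega : b < b + 3)
  have hlo : lo.degree ≤ (a + 2 : ℕ) := by
    have : lo = C lam * X ^ (a + 2) - 1 := rfl
    rw [this]
    refine (degree_sub_le _ _).trans (max_le (degree_C_mul_X_pow_le _ _) ?_)
    rw [degree_one]
    exact_mod_cast Nat.zero_le _
  have hR1 : R1.degree ≤ (1 : ℕ) := by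
    have : R1 = C (R.coeff (a + 3)) + C (R.coeff (a + 4)) * X := rfl
    rw [this]
    refine (degree_add_le _ _).trans (max_le (degree_C_le.trans ?_) ?_)
    · exact_mod_cast Nat.zero_le _
    · have := degree_C_mul_X_le (R.coeff (a + 4))
      exact_mod_cast this
  let S : K[X] := R1 * lo - R0 * hi
  have hS : S.degree < m := by
    refine lt_of_le_of_lt (degree_sub_le _ _) (max_lt ?_ ?_)
    · refine lt_of_le_of_lt (degree_mul_le _ _) ?_
      refine lt_of_le_of_lt (add_le_add hR1 hlo) ?_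
      exact_mod_cast (by omega : 1 + (a + 2) < m)
    · rw [degree_mul, hhi]
      by_cases h : R0 = 0
      · rw [h, degree_zero, WithBot.bot_add]
        exact WithBot.bot_lt_coe _
      · rw [degree_eq_natDegree h] at hR0 ⊢
        have h2 : R0.natDegree < a + 3 := by exact_mod_cast hR0
        exact_mod_cast (by omega : R0.natDegree + (b + 3) < m)
  have hSeval : ∀ i, S.eval (x i) = -(x i ^ (b + 3) + lam * x i ^ b) * R.eval (x i) := by
    intro i
    have h := hroot i
    simp only [S, R0, lo, hi, eval_sub, eval_mul, eval_add, eval_pow, eval_X, eval_C, eval_one]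
    linear_combination (R1.eval (x i)) * h
  have hS5 : S.degree < (b + 5 : ℕ) := by
    have := degree_lt_of_sums hx hS (a + 1) (by omega) (by
      intro j hj
      rw [← h0 j hj]
      apply Finset.sum_congr rfl
      intro i _
      rw [hSeval, ← hRe i]
      ring)
    have e : m - (a + 1) = b + 5 := by omega
    rwa [e] at this
  have hR0hi : (R0 * hi).degree < (b + 5 : ℕ) := by
    have e : R0 * hi = R1 * lo - S := by simp only [S]; ring
    rw [e]
    refine lt_of_le_of_lt (degree_sub_le _ _) (max_lt ?_ hS5)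
    refine lt_of_le_of_lt (degree_mul_le _ _) ?_
    refine lt_of_le_of_lt (add_le_add hR1 hlo) ?_
    exact_mod_cast (by omega : 1 + (a + 2) < b + 5)
  have hR02 : R0.degree < (2 : ℕ) := by
    by_cases h : R0 = 0
    · rw [h, degree_zero]
      exact WithBot.bot_lt_coe _
    · rw [degree_mul, hhi, degree_eq_natDegree h] at hR0hi
      rw [degree_eq_natDegree h]
      have h2 : R0.natDegree + (b + 3) < b + 5 := by exact_mod_cast hR0hi
      exact_mod_cast (by omega : R0.natDegree < 2)
  have hR0e : R0 = C (R0.coeff 0) + C (R0.coeff 1) * X := by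
    rw [degree_lt_iff_coeff_zero] at hR02
    ext n
    rw [coeff_add, coeff_C, coeff_C_mul, coeff_X]
    rcases n with _ | _ | n
    · simp
    · simp
    · rw [hR02 (n + 2) (by omega)]
      simp
  refine ⟨![R0.coeff 0, R0.coeff 1, R.coeff (a + 3), R.coeff (a + 4)], fun i => ?_⟩
  have e1 : R = R0 + X ^ (a + 3) * R1 := by simp only [R0]; ring
  rw [← hRe i]
  congr 1
  have e2 : R.eval (x i) = (R0 + X ^ (a + 3) * R1).eval (x i) := by rw [← e1]
  rw [e2, hR0e]
  simp only [R1, eval_add, eval_mul, eval_pow, eval_X, eval_C]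
  simp
  ring


theorem vanish {a c : ℕ} (hca : c ≤ a + 1) {m : ℕ} (hm : a + c + 5 ≤ m)
    {x : Fin m → K} (hx : Function.Injective x) {P0 P1 P2 P3 : K[X]}
    (h0 : ∀ n, c < n → P0.coeff n = 0) (h1 : ∀ n, c < n → P1.coeff n = 0)
    (h2 : ∀ n, c < n → P2.coeff n = 0) (h3 : ∀ n, c < n → P3.coeff n = 0)
    (h : ∀ i, P0.eval (x i) + x i * P1.eval (x i) +
      x i ^ (a + 3) * (P2.eval (x i) + x i * P3.eval (x i)) = 0) :
    P0 = -(X * P1) ∧ P2 = -(X * P3) := by
  have hA : ∀ {P P' : K[X]}, (∀ n, c < n → P.coeff n = 0) → (∀ n, c < n → P'.coeff n = 0) →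
      ∀ n, c + 1 < n → (P + X * P').coeff n = 0 := by
    intro P P' hP hP' n hn
    obtain ⟨n, rfl⟩ : ∃ k, n = k + 1 := ⟨n - 1, by omega⟩
    rw [coeff_add, coeff_X_mul, hP _ (by omega), hP' _ (by omega), add_zero]
  have hW : (P0 + X * P1) + X ^ (a + 3) * (P2 + X * P3) = 0 := by
    apply eq_of_eval_eq hx
    · rw [degree_lt_iff_coeff_zero]
      intro n hn
      rw [coeff_add, coeff_X_pow_mul', hA h0 h1 _ (by omega), zero_add]
      split_ifs
      · exact hA h2 h3 _ (by omega)
      · rfl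
    · intro i
      simp only [eval_add, eval_mul, eval_pow, eval_X]
      exact h i
  have hU : P0 + X * P1 = 0 := by
    ext n
    rw [coeff_zero]
    rcases Nat.lt_or_ge (c + 1) n with h5 | h5
    · exact hA h0 h1 _ h5
    · have := congrArg (fun P => P.coeff n) hW
      simp only [coeff_zero] at this
      rw [coeff_add, coeff_X_pow_mul', if_neg (by omega), add_zero] at this
      exact this
  have hV : P2 + X * P3 = 0 := by
    rw [hU, zero_add] at hW
    exact (mul_eq_zero.mp hW).resolve_left (pow_ne_zero _ X_ne_zero)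
  exact ⟨eq_neg_of_add_eq_zero_left hU, eq_neg_of_add_eq_zero_left hV⟩

/-- The outcome of the first reductions. -/
structure Sol (a b : ℕ) (lam : K) (P Q : Fin 4 → K[X]) : Prop where
  p0 : P 0 = -(X * P 1)
  p2 : P 2 = -(X * P 3)
  q0 : Q 0 = -(X * Q 1)
  q2 : Q 2 = -(X * Q 3)
  c1 : ∀ n, a ≤ n + 2 → (P 1).coeff n = 0
  c3 : ∀ n, a ≤ n + 2 → (P 3).coeff n = 0
  d1 : ∀ n, b ≤ n → (Q 1).coeff n = 0
  d3 : ∀ n, b ≤ n → (Q 3).coeff n = 0
  star : (C lam * X ^ (a + 2) - 1) * P 3 + X ^ (a + 3) * Q 3 =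
    (X ^ (b + 3) + C lam * X ^ b) * P 1 - Q 1

theorem sol_of {a b : ℕ} (ha : 1 ≤ a) (hab : a ≤ b) (hba : b ≤ a + 1) {m : ℕ} (hm : m = a + b + 6)
    {lam : K} {x : Fin m → K} (hx : Function.Injective x)
    (hroot : ∀ i, x i ^ (a + 3) * (x i ^ (b + 3) + lam * x i ^ b) = 1 - lam * x i ^ (a + 2))
    {P Q : Fin 4 → K[X]} (hP : ∀ k n, a < n → (P k).coeff n = 0)
    (hQ : ∀ k n, b < n → (Q k).coeff n = 0) (hPa : ∀ k, (P k).coeff (a - 1) = 0)
    (h0 : ∀ i, (P 0).eval (x i) + x i * (P 1).eval (x i) +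
      x i ^ (a + 3) * ((P 2).eval (x i) + x i * (P 3).eval (x i)) = 0)
    (h1 : ∀ i, (Q 0).eval (x i) + x i * (Q 1).eval (x i) +
      x i ^ (a + 3) * ((Q 2).eval (x i) + x i * (Q 3).eval (x i)) = 0)
    (h2 : ∀ i, -(x i ^ (b + 3) + lam * x i ^ b) *
        ((derivative (P 0)).eval (x i) + x i * (derivative (P 1)).eval (x i) +
          x i ^ (a + 3) * ((derivative (P 2)).eval (x i) + x i * (derivative (P 3)).eval (x i))) +
        ((derivative (Q 0)).eval (x i) + x i * (derivative (Q 1)).eval (x i) +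
          x i ^ (a + 3) * ((derivative (Q 2)).eval (x i) + x i * (derivative (Q 3)).eval (x i))) = 0) :
    Sol a b lam P Q := by
  obtain ⟨p0, p2⟩ := vanish (by omega : a ≤ a + 1) (by omega) hx (hP 0) (hP 1) (hP 2) (hP 3) h0
  obtain ⟨q0, q2⟩ := vanish (by omega : b ≤ a + 1) (by omega) hx (hQ 0) (hQ 1) (hQ 2) (hQ 3) h1
  have key : ∀ {U V : K[X]}, U = -(X * V) → ∀ n, U.coeff (n + 1) = 0 → V.coeff n = 0 := by
    intro U V hUV n hn
    rw [hUV, coeff_neg, coeff_X_mul, neg_eq_zero] at hn
    exact hn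
  have c : ∀ (k k' : Fin 4), P k = -(X * P k') → ∀ n, a ≤ n + 2 → (P k').coeff n = 0 := by
    intro k k' hkk n hn
    rcases Nat.lt_or_ge n a with h | h
    · have : n = a - 1 ∨ n + 1 = a - 1 := by omega
      rcases this with rfl | h'
      · exact hPa k'
      · apply key hkk
        rw [h']
        exact hPa k
    · apply key hkk
      exact hP _ _ (by omega)
  have d : ∀ (k k' : Fin 4), Q k = -(X * Q k') → ∀ n, b ≤ n → (Q k').coeff n = 0 := by
    intro k k' hkk n hn
    apply key hkk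
    exact hQ _ _ (by omega)
  refine ⟨p0, p2, q0, q2, c 0 1 p0, c 2 3 p2, d 0 1 q0, d 2 3 q2, ?_⟩
  have c1 := c 0 1 p0
  have c3 := c 2 3 p2
  have d1 := d 0 1 q0
  have d3 := d 2 3 q2
  rw [← sub_eq_zero]
  apply eq_of_eval_eq hx
  · rw [degree_lt_iff_coeff_zero]
    intro n hn
    have e : (C lam * X ^ (a + 2) - 1) * P 3 + X ^ (a + 3) * Q 3 -
        ((X ^ (b + 3) + C lam * X ^ b) * P 1 - Q 1) =
        C lam * (X ^ (a + 2) * P 3) - P 3 + X ^ (a + 3) * Q 3 - X ^ (b + 3) * P 1 -
          C lam * (X ^ b * P 1) + Q 1 := by ring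
    rw [e]
    simp only [coeff_add, coeff_sub, coeff_C_mul, coeff_X_pow_mul']
    rw [if_pos (by omega), if_pos (by omega), if_pos (by omega), if_pos (by omega),
      c3 _ (by omega), c3 _ (by omega), d3 _ (by omega), c1 _ (by omega), c1 _ (by omega),
      d1 _ (by omega)]
    simp
  · intro i
    have h3 := h2 i
    have h4 := hroot i
    rw [p0, p2, q0, q2] at h3
    simp only [derivative_neg, derivative_mul, derivative_X, eval_neg, eval_add, eval_mul, eval_X,
      one_mul] at h3
    simp only [eval_add, eval_sub, eval_mul, eval_pow, eval_X, eval_C, eval_one]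
    linear_combination (-1) * h3 + (P 3).eval (x i) * h4

theorem sol_coeff {a b : ℕ} {lam : K} {P Q : Fin 4 → K[X]} (h : Sol a b lam P Q) (n : ℕ) :
    lam * (if a + 2 ≤ n then (P 3).coeff (n - (a + 2)) else 0) - (P 3).coeff n +
      (if a + 3 ≤ n then (Q 3).coeff (n - (a + 3)) else 0) =
    (if b + 3 ≤ n then (P 1).coeff (n - (b + 3)) else 0) +
      lam * (if b ≤ n then (P 1).coeff (n - b) else 0) - (Q 1).coeff n := by
  have h1 := congrArg (fun P => P.coeff n) h.star
  have e : (C lam * X ^ (a + 2) - 1) * P 3 + X ^ (a + 3) * Q 3 =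
      C lam * (X ^ (a + 2) * P 3) - P 3 + X ^ (a + 3) * Q 3 := by ring
  have e2 : (X ^ (b + 3) + C lam * X ^ b) * P 1 - Q 1 =
      X ^ (b + 3) * P 1 + C lam * (X ^ b * P 1) - Q 1 := by ring
  rw [e, e2] at h1
  simpa only [coeff_add, coeff_sub, coeff_C_mul, coeff_X_pow_mul'] using h1

theorem sol_all_zero {a b : ℕ} {lam : K} {P Q : Fin 4 → K[X]} (h : Sol a b lam P Q)
    (hP1 : P 1 = 0) (hP3 : P 3 = 0) (hQ1 : Q 1 = 0) : P = 0 ∧ Q = 0 := by
  have hQ3 : Q 3 = 0 := by
    have h1 := h.star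
    rw [hP1, hP3, hQ1] at h1
    simp only [mul_zero, zero_add, sub_zero] at h1
    exact (mul_eq_zero.mp h1).resolve_left (pow_ne_zero _ X_ne_zero)
  have hP0 : P 0 = 0 := by rw [h.p0, hP1]; simp
  have hP2 : P 2 = 0 := by rw [h.p2, hP3]; simp
  have hQ0 : Q 0 = 0 := by rw [h.q0, hQ1]; simp
  have hQ2 : Q 2 = 0 := by rw [h.q2, hQ3]; simp
  constructor
  · ext1 k
    fin_cases k
    · exact hP0
    · exact hP1
    · exact hP2
    · exact hP3
  · ext1 k
    fin_cases k
    · exact hQ0
    · exact hQ1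
    · exact hQ2
    · exact hQ3

theorem sol_free {a b : ℕ} (ha : 3 ≤ a) (hab : a ≤ b) (hba : b ≤ a + 1) {lam : K} (hlam : lam ≠ 0)
    {P Q : Fin 4 → K[X]} (h : Sol a b lam P Q) (hG : ∀ n, 1 ≤ n → (P 3).coeff n = 0)
    (hH : ∀ n, a + 2 - b ≤ n → (P 1).coeff n = 0) : P = 0 ∧ Q = 0 := by
  have hG0 : P 3 = 0 := by
    ext n
    rw [coeff_zero]
    rcases n with _ | n
    · have h1 := sol_coeff h (a + 2)
      rw [if_pos le_rfl, if_neg (by omega), if_neg (by omega), if_pos (by omega),
        hG (a + 2) (by omega), h.d1 _ (by omega), hH _ (by omega)] at h1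
      simp only [Nat.sub_self, sub_zero, add_zero, mul_zero, mul_eq_zero] at h1
      exact h1.resolve_left hlam
    · exact hG _ (by omega)
  have hH0 : P 1 = 0 := by
    ext n
    rw [coeff_zero]
    rcases Nat.lt_or_ge n (a + 2 - b) with h5 | h5
    · have h1 := sol_coeff h (b + n)
      rw [if_neg (by omega), if_neg (by omega), if_neg (by omega), if_pos (by omega), hG0,
        h.d1 _ (by omega)] at h1
      simp only [coeff_zero, sub_zero, add_zero, mul_zero, zero_add, Nat.add_sub_cancel_left] at h1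
      exact (mul_eq_zero.mp h1.symm).resolve_left hlam
    · exact hH _ h5
  have hQ1 : Q 1 = 0 := by
    ext n
    rw [coeff_zero]
    rcases Nat.lt_or_ge n b with h5 | h5
    · have h1 := sol_coeff h n
      rw [hG0, hH0, if_neg (by omega), if_neg (by omega)] at h1
      simp only [coeff_zero, ite_self, mul_zero, sub_zero, add_zero, zero_sub] at h1
      exact neg_eq_zero.mp h1.symm
    · exact h.d1 _ h5
  exact sol_all_zero h hH0 hG0 hQ1

theorem sol_y {a b : ℕ} (hab : a ≤ b) (hba : b ≤ a + 1) {lam : K} (hlam : lam ≠ 0)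
    {P Q : Fin 4 → K[X]} (h : Sol a b lam P Q) (y t : K) (ht : t ≠ 0)
    (hP : P 0 + C y * P 1 + C t * (P 2 + C y * P 3) = 0)
    (hQ : Q 0 + C y * Q 1 + C t * (Q 2 + C y * Q 3) = 0) : P = 0 ∧ Q = 0 := by
  have hXy : (C y - X : K[X]) ≠ 0 := by
    intro h0
    exact X_sub_C_ne_zero y (by rw [← neg_sub, h0, neg_zero])
  have e1 : P 1 = -(C t * P 3) := by
    rw [h.p0, h.p2] at hP
    have : (C y - X) * (P 1 + C t * P 3) = 0 := by
      rw [← hP]; ring
    exact eq_neg_of_add_eq_zero_left ((mul_eq_zero.mp this).resolve_left hXy)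
  have e2 : Q 1 = -(C t * Q 3) := by
    rw [h.q0, h.q2] at hQ
    have : (C y - X) * (Q 1 + C t * Q 3) = 0 := by
      rw [← hQ]; ring
    exact eq_neg_of_add_eq_zero_left ((mul_eq_zero.mp this).resolve_left hXy)
  have e3 : Q 1 = P 3 := by
    ext n
    rcases Nat.lt_or_ge n b with h5 | h5
    · have h1 := sol_coeff h n
      rw [if_neg (by omega), if_neg (by omega), if_neg (by omega), if_neg (by omega)] at h1
      linear_combination h1
    · rw [h.d1 _ h5, h.c3 _ (by omega)]
  have h1 := h.star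
  have h2 : P 3 * (C t * C lam * X ^ (a + 2) - X ^ (a + 3) + C t ^ 2 * X ^ (b + 3) +
      C t ^ 2 * C lam * X ^ b) = 0 := by
    have e4 : C t * Q 3 = - P 3 := by rw [← e3, e2, neg_neg]
    linear_combination (C t) * h1 - X ^ (a + 3) * e4 - C t * e3 +
      C t * (X ^ (b + 3) + C lam * X ^ b) * e1
  have hB : (C t * C lam * X ^ (a + 2) - X ^ (a + 3) + C t ^ 2 * X ^ (b + 3) +
      C t ^ 2 * C lam * X ^ b : K[X]) ≠ 0 := by
    intro h0
    have h3 := congrArg (fun P => P.coeff (a + 2)) h0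
    rw [← C_mul, ← C_pow, ← C_mul] at h3
    simp only [coeff_add, coeff_sub, coeff_C_mul, coeff_X_pow, coeff_zero] at h3
    rw [if_pos trivial, if_neg (by omega), if_neg (by omega), if_neg (by omega)] at h3
    simp only [mul_one, sub_zero, mul_zero, add_zero, mul_eq_zero] at h3
    exact h3.elim ht hlam
  have hG : P 3 = 0 := (mul_eq_zero.mp h2).resolve_right hB
  exact sol_all_zero h (by rw [e1, hG]; simp) hG (by rw [e3, hG])

end ScrollCore

end Pool.Agent.Work.MP_709d16_ag
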