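import Mathlib

set_option autoImplicit false

namespace Pool.Agent.Work.MP_709d16_ag

open Polynomial

namespace ScrollNodes

/-- separating functionals for a subspace of dimension at most `r` -/
theorem exists_functionals {K : Type*} [Field K] {ι : Type*} [Fintype ι] [DecidableEq ι]
    (U : Submodule K (ι → K)) (r : ℕ) (hU : Module.finrank K U ≤ r) :
    ∃ b : Fin r → ι → K, ∀ u ∈ U, (∀ j, ∑ k, u k * b j k = 0) → u = 0 := by
  have h1 : Module.finrank K U ≤ Module.finrank K (Fin r → K) := by
    rw [Module.finrank_fin_fun]; exact hU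
  obtain ⟨f, hf⟩ := (finrank_le_iff_exists_linearMap (R := K) (M := U)
    (M' := Fin r → K)).mp h1
  obtain ⟨g, hg⟩ := f.exists_extend
  refine ⟨fun j k => g (fun j => if k = j then 1 else 0) j, ?_⟩
  intro u hu h
  have h2 : g u = 0 := by
    ext1 j
    rw [LinearMap.pi_apply_eq_sum_univ g u, Finset.sum_apply]
    exact h j
  have h3 : f ⟨u, hu⟩ = 0 := by
    rw [← hg]
    exact h2
  have h4 := hf (h3.trans (map_zero f).symm)
  exact congrArg Subtype.val h4

theorem exists_nodes (K : Type*) [Field K] [CharZero K] [IsAlgClosed K] (a b : ℕ) :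
    ∃ lam : K, lam ≠ 0 ∧ ∃ x : Fin (a + b + 6) → K, Function.Injective x ∧
      ∀ i, x i ^ (a + 3) * (x i ^ (b + 3) + lam * x i ^ b) = 1 - lam * x i ^ (a + 2) := by
  classical
  let S : K[X] := X ^ (a + b + 3) + X ^ (a + 2)
  let f : K → K[X] := fun l => X ^ (a + b + 6) - 1 + C l * S
  let D : K[X] := (X ^ (a + b + 6) - 1) * derivative S -
    C ((a + b + 6 : ℕ) : K) * X ^ (a + b + 5) * S
  have hS' : derivative S = C ((a + b + 3 : ℕ) : K) * X ^ (a + b + 2) +
      C ((a + 2 : ℕ) : K) * X ^ (a + 1) := by
    simp only [S, derivative_add, derivative_X_pow]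
    rfl
  have hf' : ∀ l, derivative (f l) = C ((a + b + 6 : ℕ) : K) * X ^ (a + b + 5) +
      C l * derivative S := by
    intro l
    simp only [f, derivative_add, derivative_sub, derivative_one, sub_zero, derivative_X_pow,
      derivative_C_mul]
    rfl
  have hD : D ≠ 0 := by
    intro h0
    have h1 := congrArg (fun P => P.coeff (a + b + 6 + (a + b + 2))) h0
    have e : D = X ^ (a + b + 6) * derivative S - derivative S -
        C ((a + b + 6 : ℕ) : K) * (X ^ (a + b + 5) * S) := by simp only [D]; ring
    rw [e, hS'] at h1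
    simp only [S, coeff_sub, coeff_add, coeff_X_pow_mul', coeff_C_mul, coeff_X_pow, coeff_zero] at h1
    rw [if_pos (by omega), if_pos (by omega), if_neg (by omega), if_neg (by omega),
      if_neg (by omega), if_pos (by omega), if_pos (by omega), if_neg (by omega)] at h1
    push_cast at h1
    have h2 : (3 : K) = 0 := by linear_combination (-1) * h1
    norm_num at h2
  -- the bad values
  let B : Set K := {l | ∃ x : K, (f l).eval x = 0 ∧ (derivative (f l)).eval x = 0}
  have hBfin : B.Finite := by
    choose! c hc using (fun l (hl : l ∈ B) => hl)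
    have hmaps : c '' B ⊆ {x | D.IsRoot x} := by
      rintro _ ⟨l, hl, rfl⟩
      obtain ⟨h1, h2⟩ := hc l hl
      rw [hf'] at h2
      simp only [f, eval_add, eval_sub, eval_mul, eval_pow, eval_X, eval_C, eval_one] at h1 h2
      simp only [Set.mem_ofPred_eq, IsRoot.def, D, eval_sub, eval_mul, eval_pow, eval_X, eval_C,
        eval_one]
      linear_combination (eval (c l) (derivative S)) * h1 - (eval (c l) S) * h2
    have hfin : (c '' B).Finite := by
      apply Set.Finite.subset _ hmaps
      exact Polynomial.finite_setOfPred_isRoot hD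
    refine Set.Finite.of_finite_image hfin ?_
    intro l1 hl1 l2 hl2 h12
    by_contra hne
    obtain ⟨h1, h2⟩ := hc l1 hl1
    obtain ⟨h3, h4⟩ := hc l2 hl2
    rw [← h12] at h3 h4
    rw [hf'] at h2 h4
    simp only [f, eval_add, eval_sub, eval_mul, eval_pow, eval_X, eval_C, eval_one] at h1 h2 h3 h4
    have hd : l1 - l2 ≠ 0 := sub_ne_zero.mpr hne
    have h5 : eval (c l1) S = 0 := by
      have : (l1 - l2) * eval (c l1) S = 0 := by linear_combination h1 - h3
      exact (mul_eq_zero.mp this).resolve_left hd
    have h6 : eval (c l1) (derivative S) = 0 := by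
      have : (l1 - l2) * eval (c l1) (derivative S) = 0 := by linear_combination h2 - h4
      exact (mul_eq_zero.mp this).resolve_left hd
    rw [h6, mul_zero, add_zero, mul_eq_zero] at h2
    rcases h2 with h2 | h2
    · exact absurd h2 (by exact_mod_cast (by omega : a + b + 6 ≠ 0))
    · have h7 : c l1 = 0 := pow_eq_zero_iff (by omega : a + b + 5 ≠ 0) |>.mp h2
      rw [h5, h7] at h1
      simp at h1
  obtain ⟨lam, hlam⟩ : ∃ lam : K, lam ∉ B ∪ {0} :=
    ((hBfin.union (Set.finite_singleton 0)).infinite_compl).nonempty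
  rw [Set.mem_union, not_or, Set.mem_singleton_iff] at hlam
  obtain ⟨hlB, hl0⟩ := hlam
  have hdeg : (f lam).natDegree = a + b + 6 := by
    have h1 : (C lam * S - 1).degree < (a + b + 6 : ℕ) := by
      rw [degree_lt_iff_coeff_zero]
      intro n hn
      simp only [S, coeff_sub, coeff_C_mul, coeff_add, coeff_X_pow, coeff_one]
      rw [if_neg (by omega), if_neg (by omega), if_neg (by omega)]
      simp
    have h2 : f lam = X ^ (a + b + 6) + (C lam * S - 1) := by simp only [f]; ring
    rw [h2]
    rw [natDegree_add_eq_left_of_degree_lt (by rw [degree_X_pow]; exact h1), natDegree_X_pow]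
  have hne : f lam ≠ 0 := by
    intro h
    rw [h, natDegree_zero] at hdeg
    omega
  have hnodup : (f lam).roots.Nodup := by
    rw [Multiset.nodup_iff_count_le_one]
    intro x
    rw [count_roots]
    by_contra hcon
    push Not at hcon
    have := (one_lt_rootMultiplicity_iff_isRoot hne).mp hcon
    exact hlB ⟨x, this.1, this.2⟩
  have hcard : (f lam).roots.toFinset.card = a + b + 6 := by
    rw [Multiset.toFinset_card_of_nodup hnodup, IsAlgClosed.card_roots_eq_natDegree, hdeg]
  refine ⟨lam, hl0, fun i => ((f lam).roots.toFinset.equivFinOfCardEq hcard).symm i, ?_, ?_⟩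
  · intro i j hij
    exact (((f lam).roots.toFinset.equivFinOfCardEq hcard).symm.injective (Subtype.ext hij))
  · intro i
    have h1 := (((f lam).roots.toFinset.equivFinOfCardEq hcard).symm i).2
    rw [Multiset.mem_toFinset, mem_roots hne, IsRoot.def] at h1
    simp only [f, S, eval_add, eval_sub, eval_mul, eval_pow, eval_X, eval_C, eval_one] at h1
    linear_combination h1

end ScrollNodes

end Pool.Agent.Work.MP_709d16_ag
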