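import Pool.Agent.Work.MP_709d16_ag.Criterion
import Pool.Agent.Work.MP_709d16_ag.ScrollCore
import Pool.Agent.Work.MP_709d16_ag.ScrollNodes

set_option autoImplicit false

namespace Pool.Agent.Work.MP_709d16_ag

open Polynomial

namespace ScrollCore

variable {K : Type*} [Field K]

/-- block polynomial: `∑ g_j X^j` -/
noncomputable def blk {c : ℕ} (g : Fin (c + 1) → K) : K[X] := ∑ j, C (g j) * X ^ (j : ℕ)

theorem blk_coeff {c : ℕ} (g : Fin (c + 1) → K) (n : ℕ) :
    (blk g).coeff n = if h : n < c + 1 then g ⟨n, h⟩ else 0 := by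
  unfold blk
  rw [finsetSum_coeff]
  simp only [coeff_C_mul, coeff_X_pow, mul_ite, mul_one, mul_zero]
  split_ifs with h
  · rw [Finset.sum_eq_single ⟨n, h⟩]
    · simp
    · intro j _ hj
      rw [if_neg]
      rintro rfl
      exact hj rfl
    · simp
  · apply Finset.sum_eq_zero
    intro j _
    rw [if_neg]
    rintro rfl
    exact h j.2

theorem blk_coeff_of_lt {c : ℕ} (g : Fin (c + 1) → K) (n : ℕ) (hn : c < n) :
    (blk g).coeff n = 0 := by
  rw [blk_coeff, dif_neg (by omega)]

theorem blk_eval {c : ℕ} (g : Fin (c + 1) → K) (x : K) :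
    (blk g).eval x = ∑ j, g j * x ^ (j : ℕ) := by
  unfold blk
  simp [eval_finsetSum]

theorem blk_deriv_eval {c : ℕ} (g : Fin (c + 1) → K) (x : K) :
    (derivative (blk g)).eval x = ∑ j, g j * (((j : ℕ) : K) * x ^ ((j : ℕ) - 1)) := by
  unfold blk
  simp [eval_finsetSum, derivative_X_pow]

theorem blk_eq_zero {c : ℕ} {g : Fin (c + 1) → K} (h : blk g = 0) : g = 0 := by
  ext1 j
  have := blk_coeff g j
  rw [h, coeff_zero, dif_pos j.2] at this
  exact this.symm

theorem blk_add {c : ℕ} (g g' : Fin (c + 1) → K) : blk (g + g') = blk g + blk g' := by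
  unfold blk
  rw [← Finset.sum_add_distrib]
  apply Finset.sum_congr rfl
  intro j _
  rw [Pi.add_apply, C_add, add_mul]

theorem blk_smul {c : ℕ} (r : K) (g : Fin (c + 1) → K) : blk (r • g) = C r * blk g := by
  unfold blk
  rw [Finset.mul_sum]
  apply Finset.sum_congr rfl
  intro j _
  rw [Pi.smul_apply, smul_eq_mul, C_mul, mul_assoc]

/-- the conditions on `θ` at all `m` nodes -/
structure WCond {a b m : ℕ} (lam : K) (x : Fin m → K)
    (θ : Fin m → Fin (a + 1) ⊕ Fin (b + 1) → K) : Prop where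
  w1 : ∀ l, ∀ j < a + 1, ∑ i, -(x i ^ (b + 3) + lam * x i ^ b) * x i ^ j * θ i l = 0
  w2 : ∀ l, ∀ j < b + 1, ∑ i, x i ^ j * θ i l = 0
  w3 : ∀ i, ∑ j, θ i (Sum.inl j) * x i ^ (j : ℕ) = 0
  w4 : ∀ i, ∑ j, θ i (Sum.inr j) * x i ^ (j : ℕ) = 0
  w5 : ∀ i, -(x i ^ (b + 3) + lam * x i ^ b) *
      ∑ j, θ i (Sum.inl j) * (((j : ℕ) : K) * x i ^ ((j : ℕ) - 1)) +
      ∑ j, θ i (Sum.inr j) * (((j : ℕ) : K) * x i ^ ((j : ℕ) - 1)) = 0
  w6 : ∀ i (h : a - 1 < a + 1), θ i (Sum.inl ⟨a - 1, h⟩) = 0

/-- the parametrised function -/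
noncomputable def par {a b m : ℕ} (x : Fin m → K) (g : Fin 4 → Fin (a + 1) ⊕ Fin (b + 1) → K)
    (i : Fin m) (l : Fin (a + 1) ⊕ Fin (b + 1)) : K :=
  eps x i * (g 0 l + x i * g 1 l + x i ^ (a + 3) * (g 2 l + x i * g 3 l))

/-- first and second block polynomials of a quadruple -/
noncomputable def PP {a b : ℕ} (g : Fin 4 → Fin (a + 1) ⊕ Fin (b + 1) → K) : Fin 4 → K[X] :=
  fun k => blk fun j => g k (Sum.inl j)
noncomputable def QQ {a b : ℕ} (g : Fin 4 → Fin (a + 1) ⊕ Fin (b + 1) → K) : Fin 4 → K[X] :=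
  fun k => blk fun j => g k (Sum.inr j)

theorem exists_par {a b : ℕ} (ha : 1 ≤ a) (hab : a ≤ b) (hba : b ≤ a + 1) {m : ℕ}
    (hm : m = a + b + 6) {lam : K} {x : Fin m → K} (hx : Function.Injective x)
    (hroot : ∀ i, x i ^ (a + 3) * (x i ^ (b + 3) + lam * x i ^ b) = 1 - lam * x i ^ (a + 2))
    {θ : Fin m → Fin (a + 1) ⊕ Fin (b + 1) → K} (hθ : WCond lam x θ) :
    ∃ g : Fin 4 → Fin (a + 1) ⊕ Fin (b + 1) → K, (∀ i l, θ i l = par x g i l) ∧
      Sol a b lam (PP g) (QQ g) := by
  have h1 := fun l => step1 hab hm hx hroot (fun i => θ i l) (hθ.w1 l) (hθ.w2 l)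
  choose r hr using h1
  have hpar : ∀ i l, θ i l = par x (fun k l => r l k) i l := fun i l => hr l i
  refine ⟨fun k l => r l k, hpar, ?_⟩
  have he := fun i => eps_ne_zero hx i
  apply sol_of ha hab hba hm hx hroot
  · intro k n hn
    exact blk_coeff_of_lt _ _ hn
  · intro k n hn
    exact blk_coeff_of_lt _ _ hn
  · intro k
    unfold PP
    rw [blk_coeff, dif_pos (by omega)]
    change r (Sum.inl ⟨a - 1, by omega⟩) k = 0
    have h2 : ∀ i, r (Sum.inl ⟨a - 1, by omega⟩) 0 + x i * r (Sum.inl ⟨a - 1, by omega⟩) 1 +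
        x i ^ (a + 3) * (r (Sum.inl ⟨a - 1, by omega⟩) 2 +
          x i * r (Sum.inl ⟨a - 1, by omega⟩) 3) = 0 := by
      intro i
      have h3 := hθ.w6 i (by omega)
      rw [hr] at h3
      exact (mul_eq_zero.mp h3).resolve_left (he i)
    generalize r (Sum.inl ⟨a - 1, by omega⟩) = ρ at h2 ⊢
    obtain ⟨h4, h5⟩ := vanish (a := a) (c := 0) (by omega) (by omega : a + 0 + 5 ≤ m) hx
      (P0 := C (ρ 0)) (P1 := C (ρ 1)) (P2 := C (ρ 2)) (P3 := C (ρ 3))
      (fun n hn => coeff_C_of_ne_zero (by omega)) (fun n hn => coeff_C_of_ne_zero (by omega))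
      (fun n hn => coeff_C_of_ne_zero (by omega)) (fun n hn => coeff_C_of_ne_zero (by omega))
      (by simpa using h2)
    have h6 : ∀ u v : K, (C u : K[X]) = -(X * C v) → u = 0 ∧ v = 0 := by
      intro u v huv
      constructor
      · have := congrArg (fun P => P.coeff 0) huv
        simpa using this
      · have := congrArg (fun P => P.coeff 1) huv
        simp only [coeff_neg, coeff_X_mul, coeff_C_zero] at this
        rw [coeff_C_of_ne_zero (by norm_num)] at this
        exact (neg_eq_zero.mp this.symm)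
    fin_cases k
    · exact (h6 _ _ h4).1
    · exact (h6 _ _ h4).2
    · exact (h6 _ _ h5).1
    · exact (h6 _ _ h5).2
  · intro i
    have h3 := hθ.w3 i
    simp only [hr] at h3
    have : eps x i * ((PP (fun k l => r l k) 0).eval (x i) +
        x i * (PP (fun k l => r l k) 1).eval (x i) +
        x i ^ (a + 3) * ((PP (fun k l => r l k) 2).eval (x i) +
          x i * (PP (fun k l => r l k) 3).eval (x i))) = 0 := by
      rw [← h3]
      simp only [PP, blk_eval, Finset.mul_sum, ← Finset.sum_add_distrib]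
      apply Finset.sum_congr rfl
      intro j _
      ring
    exact (mul_eq_zero.mp this).resolve_left (he i)
  · intro i
    have h3 := hθ.w4 i
    simp only [hr] at h3
    have : eps x i * ((QQ (fun k l => r l k) 0).eval (x i) +
        x i * (QQ (fun k l => r l k) 1).eval (x i) +
        x i ^ (a + 3) * ((QQ (fun k l => r l k) 2).eval (x i) +
          x i * (QQ (fun k l => r l k) 3).eval (x i))) = 0 := by
      rw [← h3]
      simp only [QQ, blk_eval, Finset.mul_sum, ← Finset.sum_add_distrib]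
      apply Finset.sum_congr rfl
      intro j _
      ring
    exact (mul_eq_zero.mp this).resolve_left (he i)
  · intro i
    have h3 := hθ.w5 i
    simp only [hr] at h3
    refine (mul_eq_zero.mp (?_ : eps x i * _ = 0)).resolve_left (he i)
    have e1 : ∀ (c : ℕ) (f : Fin (c + 1) → Fin 4 → K),
        ∑ j, eps x i * (f j 0 + x i * f j 1 + x i ^ (a + 3) * (f j 2 + x i * f j 3)) *
          (((j : ℕ) : K) * x i ^ ((j : ℕ) - 1)) =
        eps x i * ((derivative (blk fun j => f j 0)).eval (x i) +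
          x i * (derivative (blk fun j => f j 1)).eval (x i) +
          x i ^ (a + 3) * ((derivative (blk fun j => f j 2)).eval (x i) +
            x i * (derivative (blk fun j => f j 3)).eval (x i))) := by
      intro c f
      simp only [blk_deriv_eval, Finset.mul_sum, ← Finset.sum_add_distrib]
      apply Finset.sum_congr rfl
      intro j _
      ring
    rw [e1 a (fun j => r (Sum.inl j)), e1 b (fun j => r (Sum.inr j))] at h3
    rw [← h3]
    simp only [PP, QQ]
    ring

/-- solutions form a subspace -/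
def solSub (a b : ℕ) (lam : K) : Submodule K (Fin 4 → Fin (a + 1) ⊕ Fin (b + 1) → K) where
  carrier := {g | Sol a b lam (PP g) (QQ g)}
  zero_mem' := by
    have h1 : PP (a := a) (b := b) (0 : Fin 4 → Fin (a + 1) ⊕ Fin (b + 1) → K) = 0 := by
      ext1 k
      simp [PP, blk]
    have h2 : QQ (a := a) (b := b) (0 : Fin 4 → Fin (a + 1) ⊕ Fin (b + 1) → K) = 0 := by
      ext1 k
      simp [QQ, blk]
    change Sol a b lam _ _
    rw [h1, h2]
    constructor <;> simp
  add_mem' := by
    intro g g' hg hg'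
    have h1 : PP (g + g') = PP g + PP g' := by
      ext1 k
      exact blk_add _ _
    have h2 : QQ (g + g') = QQ g + QQ g' := by
      ext1 k
      exact blk_add _ _
    change Sol a b lam _ _ at hg hg' ⊢
    rw [h1, h2]
    constructor
    · simp only [Pi.add_apply]; rw [hg.p0, hg'.p0]; ring
    · simp only [Pi.add_apply]; rw [hg.p2, hg'.p2]; ring
    · simp only [Pi.add_apply]; rw [hg.q0, hg'.q0]; ring
    · simp only [Pi.add_apply]; rw [hg.q2, hg'.q2]; ring
    · intro n hn; simp only [Pi.add_apply, coeff_add]; rw [hg.c1 n hn, hg'.c1 n hn, add_zero]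
    · intro n hn; simp only [Pi.add_apply, coeff_add]; rw [hg.c3 n hn, hg'.c3 n hn, add_zero]
    · intro n hn; simp only [Pi.add_apply, coeff_add]; rw [hg.d1 n hn, hg'.d1 n hn, add_zero]
    · intro n hn; simp only [Pi.add_apply, coeff_add]; rw [hg.d3 n hn, hg'.d3 n hn, add_zero]
    · simp only [Pi.add_apply]
      linear_combination hg.star + hg'.star
  smul_mem' := by
    intro c g hg
    have h1 : PP (c • g) = fun k => C c * PP g k := by
      ext1 k
      exact blk_smul _ _
    have h2 : QQ (c • g) = fun k => C c * QQ g k := by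
      ext1 k
      exact blk_smul _ _
    change Sol a b lam _ _ at hg ⊢
    rw [h1, h2]
    constructor
    · rw [hg.p0]; ring
    · rw [hg.p2]; ring
    · rw [hg.q0]; ring
    · rw [hg.q2]; ring
    · intro n hn; simp only [coeff_C_mul]; rw [hg.c1 n hn, mul_zero]
    · intro n hn; simp only [coeff_C_mul]; rw [hg.c3 n hn, mul_zero]
    · intro n hn; simp only [coeff_C_mul]; rw [hg.d1 n hn, mul_zero]
    · intro n hn; simp only [coeff_C_mul]; rw [hg.d3 n hn, mul_zero]
    · linear_combination (C c) * hg.star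

theorem mem_solSub {a b : ℕ} {lam : K} {g : Fin 4 → Fin (a + 1) ⊕ Fin (b + 1) → K} :
    g ∈ solSub a b lam ↔ Sol a b lam (PP g) (QQ g) := Iff.rfl

theorem eq_zero_of_PP_QQ {a b : ℕ} {g : Fin 4 → Fin (a + 1) ⊕ Fin (b + 1) → K}
    (h1 : PP g = 0) (h2 : QQ g = 0) : g = 0 := by
  ext k l
  rcases l with j | j
  · have := blk_eq_zero (congrFun h1 k : blk (fun j => g k (Sum.inl j)) = 0)
    exact congrFun this j
  · have := blk_eq_zero (congrFun h2 k : blk (fun j => g k (Sum.inr j)) = 0)
    exact congrFun this j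

theorem finrank_solSub {a b : ℕ} (ha : 3 ≤ a) (hab : a ≤ b) (hba : b ≤ a + 1) (hb : 4 ≤ b)
    {lam : K} (hlam : lam ≠ 0) : Module.finrank K (solSub a b lam) ≤ a + b - 7 := by
  -- the free coordinates
  let Ψ : (Fin 4 → Fin (a + 1) ⊕ Fin (b + 1) → K) →ₗ[K] (Fin (a - 3) → K) × (Fin (b - 4) → K) :=
    { toFun := fun g => (fun n => (PP g 3).coeff (n + 1), fun n => (PP g 1).coeff (a + 2 - b + n))
      map_add' := by
        intro g g'
        have h1 : ∀ k, PP (g + g') k = PP g k + PP g' k := fun k => blk_add _ _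
        simp only [h1, coeff_add]
        rfl
      map_smul' := by
        intro c g
        have h1 : ∀ k, PP (c • g) k = C c * PP g k := fun k => blk_smul _ _
        simp only [h1, coeff_C_mul]
        rfl }
  have hinj : Function.Injective (Ψ.comp (solSub a b lam).subtype) := by
    rw [injective_iff_map_eq_zero]
    rintro ⟨g, hg⟩ h0
    rw [mem_solSub] at hg
    have h1 : ∀ n : Fin (a - 3), (PP g 3).coeff (n + 1) = 0 := fun n =>
      congrFun (congrArg Prod.fst h0) n
    have h2 : ∀ n : Fin (b - 4), (PP g 1).coeff (a + 2 - b + n) = 0 := fun n =>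
      congrFun (congrArg Prod.snd h0) n
    have h3 := sol_free ha hab hba hlam hg (by
      intro n hn
      rcases Nat.lt_or_ge (n + 2) a with h | h
      · have := h1 ⟨n - 1, by omega⟩
        simp only at this
        rwa [Nat.sub_add_cancel hn] at this
      · exact hg.c3 n h) (by
      intro n hn
      rcases Nat.lt_or_ge (n + 2) a with h | h
      · have := h2 ⟨n - (a + 2 - b), by omega⟩
        simp only at this
        rwa [Nat.add_sub_cancel' hn] at this
      · exact hg.c1 n h)
    have h4 := eq_zero_of_PP_QQ h3.1 h3.2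
    exact Subtype.ext h4
  have h1 := LinearMap.finrank_le_finrank_of_injective hinj
  rw [Module.finrank_prod, Module.finrank_fin_fun, Module.finrank_fin_fun] at h1
  omega

theorem par_eq_zero {a b m : ℕ} (hab : a ≤ b) (hba : b ≤ a + 1) {lam : K} (hlam : lam ≠ 0)
    {x : Fin m → K} (hx : Function.Injective x)
    {g : Fin 4 → Fin (a + 1) ⊕ Fin (b + 1) → K} (hg : Sol a b lam (PP g) (QQ g)) (i : Fin m)
    (hxi : x i ≠ 0) (h : par x g i = 0) : g = 0 := by
  have h1 : ∀ l, g 0 l + x i * g 1 l + x i ^ (a + 3) * (g 2 l + x i * g 3 l) = 0 := by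
    intro l
    have := congrFun h l
    exact (mul_eq_zero.mp this).resolve_left (eps_ne_zero hx i)
  have h2 : ∀ {c : ℕ} (f : Fin (c + 1) → Fin 4 → K), (∀ j, f j 0 + x i * f j 1 +
      x i ^ (a + 3) * (f j 2 + x i * f j 3) = 0) →
      blk (fun j => f j 0) + C (x i) * blk (fun j => f j 1) +
      C (x i ^ (a + 3)) * (blk (fun j => f j 2) + C (x i) * blk (fun j => f j 3)) = 0 := by
    intro c f hf
    rw [← blk_smul, ← blk_smul, ← blk_add, ← blk_add, ← blk_smul, ← blk_add]
    have : (((fun j => f j 0) + x i • fun j => f j 1) + x i ^ (a + 3) •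
        ((fun j => f j 2) + x i • fun j => f j 3)) = (0 : Fin (c + 1) → K) := by
      ext1 j
      exact hf j
    rw [this]
    simp [blk]
  have h3 := sol_y hab hba hlam hg (x i) (x i ^ (a + 3)) (pow_ne_zero _ hxi)
    (h2 (fun j k => g k (Sum.inl j)) fun j => h1 _) (h2 (fun j k => g k (Sum.inr j)) fun j => h1 _)
  exact eq_zero_of_PP_QQ h3.1 h3.2

end ScrollCore

end Pool.Agent.Work.MP_709d16_ag
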