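import Pool.Agent.Work.MP_709d16_ag.Scroll

set_option autoImplicit false

namespace Pool.Agent.Work.MP_709d16_ag

namespace ScrollCore

open MvPolynomial

variable {K : Type*} [Field K]

theorem eval_scroll_inl {a b : ℕ} (s : Fin 3 → K) (j : Fin (a + 1)) :
    eval s (scroll K a b (Sum.inl j)) = s 1 * s 0 ^ (j : ℕ) := by
  simp [scroll]

theorem eval_scroll_inr {a b : ℕ} (s : Fin 3 → K) (j : Fin (b + 1)) :
    eval s (scroll K a b (Sum.inr j)) = s 2 * s 0 ^ (j : ℕ) := by
  simp [scroll]

theorem eval_p0_inl {a b : ℕ} (s : Fin 3 → K) (j : Fin (a + 1)) :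
    eval s (pderiv 0 (scroll K a b (Sum.inl j))) = s 1 * (((j : ℕ) : K) * s 0 ^ ((j : ℕ) - 1)) := by
  simp [scroll, Derivation.leibniz_pow]

theorem eval_p0_inr {a b : ℕ} (s : Fin 3 → K) (j : Fin (b + 1)) :
    eval s (pderiv 0 (scroll K a b (Sum.inr j))) = s 2 * (((j : ℕ) : K) * s 0 ^ ((j : ℕ) - 1)) := by
  simp [scroll, Derivation.leibniz_pow]

theorem eval_p1_inl {a b : ℕ} (s : Fin 3 → K) (j : Fin (a + 1)) :
    eval s (pderiv 1 (scroll K a b (Sum.inl j))) = s 0 ^ (j : ℕ) := by
  simp [scroll, Derivation.leibniz_pow]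

theorem eval_p1_inr {a b : ℕ} (s : Fin 3 → K) (j : Fin (b + 1)) :
    eval s (pderiv 1 (scroll K a b (Sum.inr j))) = 0 := by
  simp [scroll, Derivation.leibniz_pow]

theorem eval_p2_inl {a b : ℕ} (s : Fin 3 → K) (j : Fin (a + 1)) :
    eval s (pderiv 2 (scroll K a b (Sum.inl j))) = 0 := by
  simp [scroll, Derivation.leibniz_pow]

theorem eval_p2_inr {a b : ℕ} (s : Fin 3 → K) (j : Fin (b + 1)) :
    eval s (pderiv 2 (scroll K a b (Sum.inr j))) = s 0 ^ (j : ℕ) := by
  simp [scroll, Derivation.leibniz_pow]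

/-- the parameter point of node `x` -/
def node (b : ℕ) (lam x : K) : Fin 3 → K := ![x, -(x ^ (b + 3) + lam * x ^ b), 1]

theorem wcond_of {a b m : ℕ} {lam : K} {x : Fin m → K}
    {θ : Fin m → Fin (a + 1) ⊕ Fin (b + 1) → K}
    (h0 : ∀ (h : a - 1 < a + 1) i, θ i (Sum.inl ⟨a - 1, h⟩) = 0)
    (h1 : ∀ i c, ∑ k, θ i k * eval (node b lam (x i)) (pderiv c (scroll K a b k)) = 0)
    (h2 : ∀ k l, ∑ i, eval (node b lam (x i)) (scroll K a b k) * θ i l = 0) :
    WCond lam x θ where
  w1 := by
    intro l j hj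
    have h := h2 (Sum.inl ⟨j, hj⟩) l
    simpa only [eval_scroll_inl, node, Matrix.cons_val_zero, Matrix.cons_val_one] using h
  w2 := by
    intro l j hj
    have h := h2 (Sum.inr ⟨j, hj⟩) l
    simpa [eval_scroll_inr, node] using h
  w3 := by
    intro i
    have h := h1 i 1
    rw [Fintype.sum_sum_type] at h
    simpa [eval_p1_inl, eval_p1_inr, node] using h
  w4 := by
    intro i
    have h := h1 i 2
    rw [Fintype.sum_sum_type] at h
    simpa [eval_p2_inl, eval_p2_inr, node] using h
  w5 := by
    intro i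
    have h := h1 i 0
    rw [Fintype.sum_sum_type] at h
    rw [← h, Finset.mul_sum]
    congr 1
    · apply Finset.sum_congr rfl
      intro j _
      rw [eval_p0_inl]
      simp only [node, Matrix.cons_val_zero, Matrix.cons_val_one]
      ring
    · apply Finset.sum_congr rfl
      intro j _
      rw [eval_p0_inr]
      simp [node]
  w6 := by
    intro i h
    exact h0 h i

/-- evaluation of `par` at a node, as a linear map -/
noncomputable def parL {a b m : ℕ} (x : Fin m → K) (i : Fin m) :
    (Fin 4 → Fin (a + 1) ⊕ Fin (b + 1) → K) →ₗ[K] (Fin (a + 1) ⊕ Fin (b + 1) → K) where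
  toFun g := par x g i
  map_add' g g' := by
    ext1 l
    simp only [par, Pi.add_apply]
    ring
  map_smul' c g := by
    ext1 l
    simp only [par, Pi.smul_apply, smul_eq_mul, RingHom.id_apply]
    ring

theorem node_ne {a b m : ℕ} {lam : K} {x : Fin m → K}
    (hroot : ∀ i, x i ^ (a + 3) * (x i ^ (b + 3) + lam * x i ^ b) = 1 - lam * x i ^ (a + 2))
    (i : Fin m) : x i ≠ 0 := by
  intro h
  have := hroot i
  rw [h] at this
  simp at this

theorem par_zero {a b m : ℕ} (x : Fin m → K) (i : Fin m) :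
    par x (0 : Fin 4 → Fin (a + 1) ⊕ Fin (b + 1) → K) i = 0 := (parL x i).map_zero

theorem scroll_ge8 [CharZero K] [IsAlgClosed K] {a b : ℕ} (ha : 4 ≤ a) (hab : a ≤ b)
    (hba : b ≤ a + 1) (n D : ℕ) (hn : n = a + b) (hD : D = (n - 2) * (n + 5) + 5) :
    Interpolation (scroll K a b) n D := by
  classical
  obtain ⟨lam, hlam, x, hx, hroot⟩ := ScrollNodes.exists_nodes K a b
  have hq : D / (n - 2) = a + b + 5 := by
    rw [hD, hn, Nat.mul_add_div (by omega)]
    have : 5 / (a + b - 2) = 0 := Nat.div_eq_of_lt (by omega)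
    omega
  have hL : n - 1 - D % (n - 2) = a + b - 7 + 1 := by
    rw [hD, hn, Nat.mul_add_mod]
    have : 5 % (a + b - 2) = 5 := Nat.mod_eq_of_lt (by omega)
    omega
  let U : Submodule K (Fin (a + 1) ⊕ Fin (b + 1) → K) := (solSub a b lam).map (parL x 0)
  have hU : Module.finrank K U ≤ a + b - 7 :=
    (Submodule.finrank_map_le _ _).trans (finrank_solSub (by omega) hab hba (by omega) hlam)
  obtain ⟨β, hβ⟩ := ScrollNodes.exists_functionals U (a + b - 7) hU
  refine interpolation_of_deletion (scroll K a b) n D (a + b + 5) (a + b - 7) hq hL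
    (Sum.inl ⟨a - 1, by omega⟩) ?_ (fun i => node b lam (x i.succ)) (node b lam (x 0)) β ?_ ?_
  · rw [Fintype.card_sum, Fintype.card_fin, Fintype.card_fin]
    omega
  · refine ⟨Sum.inr 0, by simp, ?_⟩
    rw [eval_scroll_inr]
    simp [node]
  · intro θ θy h1 h2 h3 h4 h5 h6
    let Θ : Fin (a + b + 5 + 1) → Fin (a + 1) ⊕ Fin (b + 1) → K := Fin.cons θy θ
    have hΘ : WCond lam x Θ := by
      apply wcond_of
      · intro h i
        refine Fin.cases ?_ ?_ i
        · exact h2
        · intro i
          exact h1 i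
      · intro i
        refine Fin.cases ?_ ?_ i
        · exact h4
        · intro i
          exact h3 i
      · intro k l
        rw [Fin.sum_univ_succ, ← h6 k l, add_comm]
        rfl
    obtain ⟨g, hg, hsol⟩ := exists_par (by omega) hab hba rfl hx hroot hΘ
    have hy : θy = par x g 0 := by
      ext1 l
      exact hg 0 l
    have hy0 : θy = 0 := by
      apply hβ
      · rw [hy]
        exact Submodule.mem_map.mpr ⟨g, hsol, rfl⟩
      · exact h5
    have hg0 : g = 0 := par_eq_zero hab hba hlam hx hsol 0 (node_ne hroot 0) (hy ▸ hy0)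
    refine ⟨fun i => ?_, hy0⟩
    ext1 l
    have := hg i.succ l
    rw [hg0, par_zero] at this
    exact this

theorem scroll_7 [CharZero K] [IsAlgClosed K] : Interpolation (scroll K 3 4) 7 65 := by
  classical
  obtain ⟨lam, hlam, x, hx, hroot⟩ := ScrollNodes.exists_nodes K 3 4
  refine interpolation_of_deletion (scroll K 3 4) 7 65 13 5 (by norm_num) (by norm_num)
    (Sum.inl ⟨2, by omega⟩) ?_ (fun i => node 4 lam (x i)) ![0, 1, 0]
    (fun j => Pi.single ((![Sum.inl 3, Sum.inr 1, Sum.inr 2, Sum.inr 3, Sum.inr 4] :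
      Fin 5 → Fin 4 ⊕ Fin 5) j) 1) ?_ ?_
  · rw [Fintype.card_sum, Fintype.card_fin, Fintype.card_fin]
  · refine ⟨Sum.inl 0, by simp, ?_⟩
    rw [eval_scroll_inl]
    simp
  · intro θ θy h1 h2 h3 h4 h5 h6
    have hy : θy = 0 := by
      have e0 := h4 0
      have e1 := h4 1
      have e2 := h4 2
      rw [Fintype.sum_sum_type] at e0 e1 e2
      simp only [eval_p0_inl, eval_p0_inr, eval_p1_inl, eval_p1_inr, eval_p2_inl, eval_p2_inr]
        at e0 e1 e2
      have f0 := h5 0
      have f1 := h5 1
      have f2 := h5 2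
      have f3 := h5 3
      have f4 := h5 4
      simp [Fin.sum_univ_succ] at e0 e1 e2 f0 f1 f2 f3 f4
      ext1 k
      rcases k with j | j
      · fin_cases j
        · exact e1
        · exact e0
        · exact h2
        · exact f0
      · fin_cases j
        · exact e2
        · exact f1
        · exact f2
        · exact f3
        · exact f4
    have hΘ : WCond (a := 3) (b := 4) lam x θ := by
      apply wcond_of
      · intro h i
        exact h1 i
      · exact h3
      · intro k l
        rw [← h6 k l, hy]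
        simp
    obtain ⟨g, hg, hsol⟩ := exists_par (a := 3) (b := 4) (by omega) (by omega) (by omega) rfl hx
      hroot hΘ
    have hg0 : g = 0 := by
      have h7 := finrank_solSub (a := 3) (b := 4) (by omega) (by omega) (by omega) (by omega) hlam
      have h8 : Module.finrank K (solSub 3 4 lam) = 0 := by omega
      have h9 := Submodule.finrank_eq_zero.mp h8
      have : g ∈ solSub 3 4 lam := hsol
      rw [h9] at this
      exact (Submodule.mem_bot K).mp this
    refine ⟨fun i => ?_, hy⟩
    ext1 l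
    have := hg i l
    rw [hg0, par_zero] at this
    exact this

end ScrollCore

end Pool.Agent.Work.MP_709d16_ag
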